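import Pool.Agent.X208.SQ.Main

/-!
# The square root law for powers
-/

open CategoryTheory AlgebraicGeometry

universe u v

namespace Pool.Agent.X208.SQ

open Module
open Pool.Agent.H914 Pool.Agent.H914.VarClass Pool.Agent.H914.VarClass.Obj
  Pool.Agent.H914.WeilCohomology Pool.Agent.Y133.Half Pool.Agent.Y133.Half.Sys

variable {k : Type u} [Field k] {𝒱 : VarClass k} {ops : CycleOps 𝒱}
  {W : WeilCohomology.{u, v} ops} {X Y Z P : 𝒱.Obj}

/-- A power of a power. -/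
lemma exists_pwPw (X : 𝒱.Obj) (m : ℕ) : ∀ q N, N + 1 = (m + 1) * (q + 1) →
    Nonempty (pw (pw X m) q ≅ pw X N) := by
  intro q
  induction q with
  | zero =>
    intro N hN
    have h : N = m := by omega
    subst h
    exact ⟨Iso.refl _⟩
  | succ q ih =>
    intro N hN
    obtain ⟨M, hM⟩ : ∃ M, M + 1 = (m + 1) * (q + 1) :=
      ⟨(m + 1) * (q + 1) - 1, Nat.sub_add_cancel (Nat.mul_pos (by omega) (by omega))⟩
    obtain ⟨φ⟩ := ih M hM
    have hN' : N = M + m + 1 := by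
      have h1 : (m + 1) * (q + 1 + 1) = (m + 1) * (q + 1) + (m + 1) := by ring
      omega
    subst hN'
    exact ⟨prodCongr φ (Iso.refl _) ≪≫ pwAdd X M m⟩

/-- **The square root law** for systems of classes. If there is a nonzero numerically trivial class
of the system on the power `X ^ (m + 1)`, then for all `Y` and `n` the rank of the intersection form
on `Y × X ^ (n + 1)` is small compared with the dimension of the space of classes. -/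
theorem sqrt_law_pow (S : Sys W) (X Y : 𝒱.Obj) {m : ℕ} (hX : S.Num (pw X m) ≠ ⊥) (n : ℕ) :
    ((n : ℝ) + 1) * (S.a (Y.prod (pw X n)) : ℝ) ^ 2 ≤
      6144 * ((m : ℝ) + 1) * (finrank W.K (W.H Y) : ℝ) ^ 2 *
        (finrank W.K (W.H X) : ℝ) ^ (7 * (m + 1)) *
        Real.log (finrank W.K (W.H Y) * (finrank W.K (W.H X) : ℝ) ^ (m + 1) * ((n : ℝ) + 2)) *
          (finrank W.K (S.C (Y.prod (pw X n))) : ℝ) ^ 2 := by
  have hah : S.a (Y.prod (pw X n)) ≤ finrank W.K (S.C (Y.prod (pw X n))) := by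
    have := S.a_add_num (Y.prod (pw X n))
    omega
  have hn0 : (0 : ℝ) ≤ n := Nat.cast_nonneg n
  have hm0 : (0 : ℝ) ≤ m := Nat.cast_nonneg m
  set b := finrank W.K (W.H X) with hb
  set β := finrank W.K (W.H Y) with hβ
  -- degenerate cases
  by_cases hdeg : b = 0 ∨ β = 0
  · have h1 : finrank W.K (W.H (Y.prod (pw X n))) = 0 := by
      rw [Pool.Agent.Y133.Half.finrank_prod, finrank_pw]
      rcases hdeg with h | h
      · rw [← hb, h]; simp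
      · rw [← hβ, h]; simp
    have h2 : finrank W.K (S.C (Y.prod (pw X n))) = 0 := by
      have := Submodule.finrank_le (S.C (Y.prod (pw X n)))
      omega
    have h3 : S.a (Y.prod (pw X n)) = 0 := by omega
    rw [h2, h3]
    simp
  push Not at hdeg
  have hb1 : (1 : ℝ) ≤ b := by exact_mod_cast Nat.one_le_iff_ne_zero.2 hdeg.1
  have hβ1 : (1 : ℝ) ≤ β := by exact_mod_cast Nat.one_le_iff_ne_zero.2 hdeg.2
  have hbm : (1 : ℝ) ≤ (b : ℝ) ^ (m + 1) := one_le_pow₀ hb1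
  have hlog : (0.69 : ℝ) ≤ Real.log (β * (b : ℝ) ^ (m + 1) * ((n : ℝ) + 2)) := by
    have h1 : (2 : ℝ) ≤ β * (b : ℝ) ^ (m + 1) * ((n : ℝ) + 2) := by
      have h2 : (1 : ℝ) ≤ β * (b : ℝ) ^ (m + 1) := one_le_mul_of_one_le_of_one_le hβ1 hbm
      nlinarith
    have h3 := Real.log_le_log (by norm_num) h1
    have := Real.log_two_gt_d9
    linarith
  have hh0 : (0 : ℝ) ≤ (finrank W.K (S.C (Y.prod (pw X n))) : ℝ) ^ 2 := by positivity
  by_cases hnm : n ≤ m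
  · have h1 : (S.a (Y.prod (pw X n)) : ℝ) ^ 2 ≤ (finrank W.K (S.C (Y.prod (pw X n))) : ℝ) ^ 2 :=
      pow_le_pow_left₀ (Nat.cast_nonneg _) (by exact_mod_cast hah) 2
    have h2 : (n : ℝ) ≤ m := by exact_mod_cast hnm
    have h3 : (1 : ℝ) ≤ (β : ℝ) ^ 2 * (b : ℝ) ^ (7 * (m + 1)) :=
      one_le_mul_of_one_le_of_one_le (one_le_pow₀ hβ1) (one_le_pow₀ hb1)
    have h4 : (0.69 : ℝ) ≤ (β : ℝ) ^ 2 * (b : ℝ) ^ (7 * (m + 1)) *
        Real.log (β * (b : ℝ) ^ (m + 1) * ((n : ℝ) + 2)) := by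
      have := le_mul_of_one_le_left (show (0 : ℝ) ≤
        Real.log (β * (b : ℝ) ^ (m + 1) * ((n : ℝ) + 2)) by linarith) h3
      linarith
    have h5 : (n : ℝ) + 1 ≤ 6144 * ((m : ℝ) + 1) * (β : ℝ) ^ 2 * (b : ℝ) ^ (7 * (m + 1)) *
        Real.log (β * (b : ℝ) ^ (m + 1) * ((n : ℝ) + 2)) := by
      have h6 : ((m : ℝ) + 1) * 0.69 ≤ ((m : ℝ) + 1) * ((β : ℝ) ^ 2 * (b : ℝ) ^ (7 * (m + 1)) *
        Real.log (β * (b : ℝ) ^ (m + 1) * ((n : ℝ) + 2))) :=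
        mul_le_mul_of_nonneg_left h4 (by linarith)
      calc (n : ℝ) + 1 ≤ 6144 * (((m : ℝ) + 1) * 0.69) := by linarith
        _ ≤ 6144 * (((m : ℝ) + 1) * ((β : ℝ) ^ 2 * (b : ℝ) ^ (7 * (m + 1)) *
          Real.log (β * (b : ℝ) ^ (m + 1) * ((n : ℝ) + 2)))) :=
            mul_le_mul_of_nonneg_left h6 (by norm_num)
        _ = _ := by ring
    exact mul_le_mul h5 h1 (by positivity) (by positivity)
  -- the main case
  push Not at hnm
  obtain ⟨q, s, hs1, hs2, hqs⟩ : ∃ q s : ℕ, 1 ≤ s ∧ s ≤ m + 1 ∧ n + 1 = (m + 1) * (q + 1) + s := by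
    refine ⟨n / (m + 1) - 1, n % (m + 1) + 1, by omega, ?_, ?_⟩
    · have := Nat.mod_lt n (show 0 < m + 1 by omega)
      omega
    · have h1 : 1 ≤ n / (m + 1) := (Nat.one_le_div_iff (by omega)).2 (by omega)
      rw [Nat.sub_add_cancel h1]
      have := Nat.div_add_mod n (m + 1)
      omega
  obtain ⟨M, hM⟩ : ∃ M, M + 1 = (m + 1) * (q + 1) :=
    ⟨(m + 1) * (q + 1) - 1, Nat.sub_add_cancel (Nat.mul_pos (by omega) (by omega))⟩
  obtain ⟨t, rfl⟩ : ∃ t, s = t + 1 := ⟨s - 1, by omega⟩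
  obtain ⟨φ⟩ := exists_pwPw X m q M hM
  let ψ : (Y.prod (pw X t)).prod (pw (pw X m) q) ≅ Y.prod (pw X n) :=
    θ₃ Y (pw X t) (pw (pw X m) q) ≪≫ prodCongr (Iso.refl Y)
      (prodCongr (Iso.refl _) φ ≪≫ pwAdd X t M ≪≫
        eqToIso (congrArg (pw X) (show t + M + 1 = n by omega)))
  have h1 := sqrt_law S (pw X m) (Y.prod (pw X t)) hX q
  rw [S.a_iso ψ, S.finrank_C_iso ψ, Pool.Agent.Y133.Half.finrank_prod, finrank_pw, finrank_pw,
    ← hb, ← hβ] at h1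
  push_cast at h1
  have hq0 : (0 : ℝ) ≤ q := Nat.cast_nonneg q
  have h2 : (n : ℝ) + 1 ≤ 2 * ((m : ℝ) + 1) * (q + 1) := by
    have h3 : n + 1 ≤ 2 * ((m + 1) * (q + 1)) := by
      have : m + 1 ≤ (m + 1) * (q + 1) := Nat.le_mul_of_pos_right _ (by omega)
      omega
    have h4 : ((n + 1 : ℕ) : ℝ) ≤ ((2 * ((m + 1) * (q + 1)) : ℕ) : ℝ) := by exact_mod_cast h3
    push_cast at h4
    linarith
  have h3 : (b : ℝ) ^ (t + 1) ≤ (b : ℝ) ^ (m + 1) := pow_le_pow_right₀ hb1 hs2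
  have h4 : (q : ℝ) + 2 ≤ n + 2 := by
    have h5 : q + 1 ≤ (m + 1) * (q + 1) := Nat.le_mul_of_pos_left _ (by omega)
    have h6 : q ≤ n := by omega
    have h7 : (q : ℝ) ≤ n := by exact_mod_cast h6
    linarith
  have hbt : (1 : ℝ) ≤ (b : ℝ) ^ (t + 1) := one_le_pow₀ hb1
  have h5 : Real.log (β * (b : ℝ) ^ (t + 1) * ((q : ℝ) + 2)) ≤
      Real.log (β * (b : ℝ) ^ (m + 1) * ((n : ℝ) + 2)) := by
    apply Real.log_le_log (by positivity)
    exact mul_le_mul (mul_le_mul_of_nonneg_left h3 (by positivity)) h4 (by positivity)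
      (by positivity)
  have h6 : (0 : ℝ) ≤ (S.a (Y.prod (pw X n)) : ℝ) ^ 2 := by positivity
  have h7 : ((β : ℝ) * (b : ℝ) ^ (t + 1)) ^ 2 * ((b : ℝ) ^ (m + 1)) ^ 5 ≤
      (β : ℝ) ^ 2 * (b : ℝ) ^ (7 * (m + 1)) := by
    calc ((β : ℝ) * (b : ℝ) ^ (t + 1)) ^ 2 * ((b : ℝ) ^ (m + 1)) ^ 5 ≤
        ((β : ℝ) * (b : ℝ) ^ (m + 1)) ^ 2 * ((b : ℝ) ^ (m + 1)) ^ 5 := by
          apply mul_le_mul_of_nonneg_right _ (by positivity)
          exact pow_le_pow_left₀ (by positivity) (mul_le_mul_of_nonneg_left h3 (by positivity)) 2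
      _ = _ := by ring
  have h8 : 3072 * ((β : ℝ) * (b : ℝ) ^ (t + 1)) ^ 2 * ((b : ℝ) ^ (m + 1)) ^ 5 *
      Real.log (β * (b : ℝ) ^ (t + 1) * ((q : ℝ) + 2)) ≤
      3072 * ((β : ℝ) ^ 2 * (b : ℝ) ^ (7 * (m + 1))) *
        Real.log (β * (b : ℝ) ^ (m + 1) * ((n : ℝ) + 2)) := by
    have h9 : 0 ≤ Real.log (β * (b : ℝ) ^ (t + 1) * ((q : ℝ) + 2)) := by
      apply Real.log_nonneg
      have : (1 : ℝ) ≤ β * (b : ℝ) ^ (t + 1) := one_le_mul_of_one_le_of_one_le hβ1 hbt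
      exact one_le_mul_of_one_le_of_one_le this (by linarith)
    rw [mul_assoc (3072 : ℝ)]
    exact mul_le_mul (mul_le_mul_of_nonneg_left h7 (by norm_num)) h5 h9 (by positivity)
  calc ((n : ℝ) + 1) * (S.a (Y.prod (pw X n)) : ℝ) ^ 2
      ≤ (2 * ((m : ℝ) + 1) * (q + 1)) * (S.a (Y.prod (pw X n)) : ℝ) ^ 2 :=
        mul_le_mul_of_nonneg_right h2 h6
    _ = 2 * ((m : ℝ) + 1) * (((q : ℝ) + 1) * (S.a (Y.prod (pw X n)) : ℝ) ^ 2) := by ring
    _ ≤ 2 * ((m : ℝ) + 1) * (3072 * ((β : ℝ) * (b : ℝ) ^ (t + 1)) ^ 2 * ((b : ℝ) ^ (m + 1)) ^ 5 *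
      Real.log (β * (b : ℝ) ^ (t + 1) * ((q : ℝ) + 2)) *
        (finrank W.K (S.C (Y.prod (pw X n))) : ℝ) ^ 2) :=
        mul_le_mul_of_nonneg_left h1 (by linarith)
    _ ≤ 2 * ((m : ℝ) + 1) * (3072 * ((β : ℝ) ^ 2 * (b : ℝ) ^ (7 * (m + 1))) *
        Real.log (β * (b : ℝ) ^ (m + 1) * ((n : ℝ) + 2)) *
        (finrank W.K (S.C (Y.prod (pw X n))) : ℝ) ^ 2) := by
        apply mul_le_mul_of_nonneg_left _ (by linarith)
        exact mul_le_mul_of_nonneg_right h8 hh0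
    _ = _ := by ring

end Pool.Agent.X208.SQ
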