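import Mathlib

/-!
# The real inequalities
-/

namespace Pool.Agent.X208.SQ

open Finset

/-- Iteration of the inequality `h (m + 1) ≥ r (m + 1) + q (h m - E m)`. -/
lemma iterate {h r E : ℕ → ℝ} {q ω : ℝ} (hq : 0 ≤ q) (N : ℕ) : ∀ J ≤ N,
    (∀ i < J, r (N - i) + q * (h (N - i - 1) - E (N - i - 1)) ≤ h (N - i)) →
    (∀ i < J, q ^ (i + 1) * E (N - i - 1) ≤ ω) →
    ∑ i ∈ range J, q ^ i * r (N - i) + q ^ J * h (N - J) - J * ω ≤ h N := by
  intro J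
  induction J with
  | zero =>
    intro _ _ _
    simp
  | succ J ih =>
    intro hJ h1 h2
    have h3 := ih (by omega) (fun i hi => h1 i (by omega)) (fun i hi => h2 i (by omega))
    have h4 := mul_le_mul_of_nonneg_left (h1 J (by omega)) (pow_nonneg hq J)
    have h5 := h2 J (by omega)
    have h6 : N - (J + 1) = N - J - 1 := by omega
    rw [sum_range_succ, h6]
    push_cast
    have h7 : q ^ J * (r (N - J) + q * (h (N - J - 1) - E (N - J - 1))) =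
        q ^ J * r (N - J) + q ^ (J + 1) * h (N - J - 1) - q ^ (J + 1) * E (N - J - 1) := by ring
    rw [h7] at h4
    linarith

/-- A sum of a slowly decreasing geometric sequence. -/
lemma geom_lower {δ : ℝ} (hδ : 0 ≤ δ) {J : ℕ} (hJ : ((J : ℝ) - 1) * δ ≤ 1) :
    (J : ℝ) / 2 ≤ ∑ i ∈ range J, (1 + δ)⁻¹ ^ i := by
  have h1 : ∀ i : ℕ, 1 - (i : ℝ) * δ ≤ (1 + δ)⁻¹ ^ i := by
    intro i
    have h2 : (0 : ℝ) < 1 + δ := by linarith
    have h3 := one_add_mul_le_pow (a := -(δ / (1 + δ))) (by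
      have : δ / (1 + δ) ≤ 1 := by rw [div_le_one h2]; linarith
      linarith) i
    have h4 : 1 + -(δ / (1 + δ)) = (1 + δ)⁻¹ := by field_simp; ring
    rw [h4] at h3
    have h5 : δ / (1 + δ) ≤ δ := by
      rw [div_le_iff₀ h2]
      nlinarith
    have h6 : (i : ℝ) * (δ / (1 + δ)) ≤ i * δ := mul_le_mul_of_nonneg_left h5 (Nat.cast_nonneg i)
    linarith
  have h2 : ∑ i ∈ range J, (1 - (i : ℝ) * δ) = J - δ * ((J : ℝ) * (J - 1) / 2) := by
    rw [sum_sub_distrib, sum_const, card_range, nsmul_eq_mul, mul_one, ← sum_mul,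
      mul_comm _ δ]
    congr 2
    have h3 := Finset.sum_range_id_mul_two J
    have h4 : (∑ i ∈ range J, (i : ℝ)) * 2 = J * ((J : ℝ) - 1) := by
      rcases Nat.eq_zero_or_pos J with rfl | hJ0
      · simp
      · have h5 : (((∑ i ∈ range J, i) * 2 : ℕ) : ℝ) = ((J * (J - 1) : ℕ) : ℝ) := by rw [h3]
        push_cast [Nat.cast_sub (Nat.one_le_of_lt hJ0)] at h5
        exact h5
    linarith
  calc (J : ℝ) / 2 ≤ J - δ * ((J : ℝ) * (J - 1) / 2) := by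
        have : (J : ℝ) * (((J : ℝ) - 1) * δ) ≤ J * 1 :=
          mul_le_mul_of_nonneg_left hJ (Nat.cast_nonneg J)
        nlinarith
    _ = _ := h2.symm
    _ ≤ _ := sum_le_sum fun i _ => h1 i

/-- The logarithm which occurs. -/
lemma lam_le {b β n : ℕ} (hb : 1 ≤ b) (hβ : 1 ≤ β) (hn : 1 ≤ n) :
    ((b : ℝ) ^ 2 + 1) * Real.log (n + 1) + Real.log (β * b) ≤
      3 * (b : ℝ) ^ 2 * Real.log (β * (n + 1)) := by
  have hb' : (1 : ℝ) ≤ b := by exact_mod_cast hb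
  have hβ' : (1 : ℝ) ≤ β := by exact_mod_cast hβ
  have hn' : (1 : ℝ) ≤ n := by exact_mod_cast hn
  have h1 : Real.log ((β : ℝ) * b) = Real.log β + Real.log b :=
    Real.log_mul (by linarith) (by linarith)
  have h2 : Real.log ((β : ℝ) * (n + 1)) = Real.log β + Real.log (n + 1) :=
    Real.log_mul (by linarith) (by linarith)
  have h3 : (0.69 : ℝ) ≤ Real.log (n + 1) := by
    have h4 : Real.log 2 ≤ Real.log (n + 1) := Real.log_le_log (by norm_num) (by linarith)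
    have := Real.log_two_gt_d9
    linarith
  have h5 : Real.log b ≤ b - 1 := Real.log_le_sub_one_of_pos (by linarith)
  have h6 : 0 ≤ Real.log β := Real.log_nonneg hβ'
  rw [h1, h2]
  have h7 : (1 : ℝ) ≤ (b : ℝ) ^ 2 := by nlinarith
  have h8 : (b : ℝ) - 1 ≤ (b : ℝ) ^ 2 * Real.log (n + 1) := by
    have : (b : ℝ) - 1 ≤ (b : ℝ) ^ 2 * 0.69 := by nlinarith [sq_nonneg ((b : ℝ) - 1)]
    have h9 : (b : ℝ) ^ 2 * 0.69 ≤ (b : ℝ) ^ 2 * Real.log (n + 1) :=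
      mul_le_mul_of_nonneg_left h3 (by positivity)
    linarith
  have h10 : Real.log (n + 1) ≤ (b : ℝ) ^ 2 * Real.log (n + 1) := by
    have := mul_le_mul_of_nonneg_right h7 (by linarith : (0 : ℝ) ≤ Real.log (n + 1))
    linarith
  have h11 : Real.log β ≤ (b : ℝ) ^ 2 * Real.log β := by
    have := mul_le_mul_of_nonneg_right h7 h6
    linarith
  nlinarith

/-- The choice of the parameters. -/
lemma params {b n Λ : ℝ} (hb : 1 ≤ b) (hn : 4 ≤ n) (hΛ : 0.69 * b ^ 2 ≤ Λ) (hbn : b * Λ ≤ n) :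
    ∃ s θ : ℝ, s ^ 2 = 4 * n * Λ / b ∧ 1 ≤ s ∧ 0 ≤ θ ∧ θ ≤ 1 ∧ θ * s = 2 * Λ ∧
      n * θ ^ 2 / b = Λ := by
  have hb0 : 0 < b := by linarith
  have hn0 : 0 < n := by linarith
  have hb2 : 1 ≤ b ^ 2 := one_le_pow₀ hb
  have hΛ0 : 0 < Λ := by linarith
  have hs2 : Real.sqrt (4 * n * Λ / b) ^ 2 = 4 * n * Λ / b := Real.sq_sqrt (by positivity)
  set s : ℝ := Real.sqrt (4 * n * Λ / b) with hs
  have hs0 : 0 ≤ s := Real.sqrt_nonneg _
  have hθs : b * s / (2 * n) * s = 2 * Λ := by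
    have h1 : b * s / (2 * n) * s = b * s ^ 2 / (2 * n) := by ring
    rw [h1, hs2]; field_simp; ring
  have hθ2 : n * (b * s / (2 * n)) ^ 2 / b = Λ := by
    have h1 : n * (b * s / (2 * n)) ^ 2 / b = b * s ^ 2 / (4 * n) := by
      field_simp; ring
    rw [h1, hs2]; field_simp
  refine ⟨s, b * s / (2 * n), hs2, ?_, by positivity, ?_, hθs, hθ2⟩
  · rw [hs, Real.one_le_sqrt, le_div_iff₀ hb0, one_mul]
    have h1 : b ≤ b ^ 2 := by nlinarith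
    have h2 : b ^ 2 * 1 ≤ Λ * 4 := by linarith
    have h3 : Λ * 4 ≤ Λ * (4 * n) := mul_le_mul_of_nonneg_left (by linarith) hΛ0.le
    linarith
  · rw [div_le_one (by positivity)]
    have h1 : (b * s) ^ 2 ≤ (2 * n) ^ 2 := by
      rw [mul_pow, hs2]
      have h2 : b ^ 2 * (4 * n * Λ / b) = 4 * n * (b * Λ) := by field_simp
      rw [h2]
      have h3 : 4 * n * (b * Λ) ≤ 4 * n * n := mul_le_mul_of_nonneg_left hbn (by positivity)
      linarith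
    exact le_of_sq_le_sq h1 (by positivity)

/-- The number of steps. -/
lemma steps {b n s : ℝ} (hb : 1 ≤ b) (hn : 4 ≤ n) (hs : 1 ≤ s) :
    ∃ (δ : ℝ) (J : ℕ), 0 < δ ∧ δ = 2 * b * (s + 1) / n ∧ 1 / δ ≤ J ∧ ((J : ℝ) - 1) * δ ≤ 1 ∧
      (J : ℝ) ≤ n / 4 + 1 := by
  have hb0 : 0 < b := by linarith
  have hn0 : 0 < n := by linarith
  have hδ0 : 0 < 2 * b * (s + 1) / n := by positivity
  have hδ4 : 4 / n ≤ 2 * b * (s + 1) / n := by
    apply div_le_div_of_nonneg_right _ hn0.le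
    have h1 : (1 : ℝ) * 2 ≤ b * (s + 1) :=
      mul_le_mul hb (by linarith) (by norm_num) hb0.le
    linarith
  set δ : ℝ := 2 * b * (s + 1) / n with hδ
  have hJ2 : (((⌊1 / δ⌋₊ + 1 : ℕ) : ℝ) - 1) ≤ 1 / δ := by
    push_cast
    have := Nat.floor_le (show 0 ≤ 1 / δ by positivity)
    linarith
  have hJ3 : 1 / δ ≤ n / 4 := by
    rw [div_le_div_iff₀ hδ0 (by norm_num)]
    rw [div_le_iff₀ hn0] at hδ4
    linarith
  refine ⟨δ, ⌊1 / δ⌋₊ + 1, hδ0, rfl, ?_, ?_, by linarith⟩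
  · push_cast
    exact (Nat.lt_floor_add_one _).le
  · rw [le_div_iff₀ hδ0] at hJ2
    exact hJ2

/-- The trivial case. -/
lemma trivial_case {b β n Λ r h : ℝ} (hb : 1 ≤ b) (hβ : 1 ≤ β) (hn0 : 0 ≤ n)
    (hΛ : 0.69 * b ^ 2 ≤ Λ) (hr : 0 ≤ r) (hrh : r ≤ h) (htriv : n < b * Λ ∨ n < 4) :
    n * r ^ 2 ≤ 1024 * β ^ 2 * b ^ 3 * Λ * h ^ 2 := by
  have hb2 : 1 ≤ b ^ 2 := one_le_pow₀ hb
  have hb3 : 1 ≤ b ^ 3 := one_le_pow₀ hb
  have hβ2 : 1 ≤ β ^ 2 := one_le_pow₀ hβ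
  have hΛ1 : 0.69 ≤ Λ := by linarith
  have hΛ0 : 0 < Λ := by linarith
  have h0 : b * Λ ≤ b ^ 3 * Λ := by
    apply mul_le_mul_of_nonneg_right _ hΛ0.le
    calc b = b ^ 1 := (pow_one _).symm
      _ ≤ b ^ 3 := pow_le_pow_right₀ hb (by norm_num)
  have h3 : b ^ 3 * Λ ≤ β ^ 2 * (b ^ 3 * Λ) := by
    have h4 : (0 : ℝ) ≤ b ^ 3 * Λ := by positivity
    exact le_mul_of_one_le_left h4 hβ2
  have h5 : 0.69 ≤ b ^ 3 * Λ := by
    have : Λ ≤ b ^ 3 * Λ := le_mul_of_one_le_left hΛ0.le hb3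
    linarith
  have h1 : n ≤ 1024 * β ^ 2 * b ^ 3 * Λ := by
    have h6 : n ≤ 1024 * (β ^ 2 * (b ^ 3 * Λ)) := by
      rcases htriv with h1 | h1 <;> linarith
    calc n ≤ _ := h6
      _ = _ := by ring
  have h7 : r ^ 2 ≤ h ^ 2 := pow_le_pow_left₀ hr hrh 2
  calc n * r ^ 2 ≤ n * h ^ 2 := mul_le_mul_of_nonneg_left h7 hn0
    _ ≤ _ := mul_le_mul_of_nonneg_right h1 (by positivity)

/-- The conclusion. -/
lemma conclude {b β n s δ Λ J r h R : ℝ} (hb : 1 ≤ b) (hβ : 1 ≤ β) (hn : 4 ≤ n) (hs : 1 ≤ s)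
    (hs2 : s ^ 2 = 4 * n * Λ / b) (hδ0 : 0 < δ) (hδ : δ = 2 * b * (s + 1) / n)
    (hJ1 : 1 / δ ≤ J) (hr : 0 ≤ r) (hh : 0 ≤ h) (hR : R = r / (β * b)) (hfin : R * (J / 4) ≤ h) :
    n * r ^ 2 ≤ 1024 * β ^ 2 * b ^ 3 * Λ * h ^ 2 := by
  have hb0 : 0 < b := by linarith
  have hn0 : 0 < n := by linarith
  have hβ0 : 0 < β := by linarith
  have hs0 : 0 < s := by linarith
  have hR0 : 0 ≤ R := by rw [hR]; positivity
  have h1 : r * n ≤ 16 * β * b ^ 2 * s * h := by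
    have h2 : R * (1 / δ / 4) ≤ h := by
      refine le_trans (mul_le_mul_of_nonneg_left ?_ hR0) hfin
      linarith
    have h3 : R * (1 / δ / 4) = r * n / (8 * β * b ^ 2 * (s + 1)) := by
      rw [hR, hδ]; field_simp; ring
    rw [h3, div_le_iff₀ (by positivity)] at h2
    calc r * n ≤ h * (8 * β * b ^ 2 * (s + 1)) := h2
      _ ≤ h * (8 * β * b ^ 2 * (2 * s)) := by
          apply mul_le_mul_of_nonneg_left _ hh
          apply mul_le_mul_of_nonneg_left _ (by positivity)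
          linarith
      _ = _ := by ring
  have h2 : (r * n) ^ 2 ≤ (16 * β * b ^ 2 * s * h) ^ 2 :=
    pow_le_pow_left₀ (mul_nonneg hr hn0.le) h1 2
  have h3 : (16 * β * b ^ 2 * s * h) ^ 2 = n * (1024 * β ^ 2 * b ^ 3 * Λ * h ^ 2) := by
    calc (16 * β * b ^ 2 * s * h) ^ 2 =
        256 * β ^ 2 * b ^ 4 * s ^ 2 * h ^ 2 := by ring
      _ = _ := by rw [hs2]; field_simp; ring
  rw [h3] at h2
  have h4 : n * (n * r ^ 2) ≤ n * (1024 * β ^ 2 * b ^ 3 * Λ * h ^ 2) := by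
    calc n * (n * r ^ 2) = (r * n) ^ 2 := by ring
      _ ≤ _ := h2
  exact le_of_mul_le_mul_left h4 hn0

/-- The error term. -/
lemma error_le {b β N : ℕ} {n Λ h ω J : ℝ} (hb : 1 ≤ b) (hβ : 1 ≤ β) (hn : 1 ≤ n)
    (hΛ : Λ = ((b : ℝ) ^ 2 + 1) * Real.log (n + 1) + Real.log (β * b))
    (hω : ω = β * ((b : ℝ) ^ (N + 1) * Real.exp (-Λ))) (hJ : J ≤ n + 1)
    (hgr : (b : ℝ) ^ N ≤ h * (n + 1) ^ (b ^ 2)) : J * ω ≤ h := by
  have hb' : (1 : ℝ) ≤ b := by exact_mod_cast hb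
  have hβ' : (1 : ℝ) ≤ β := by exact_mod_cast hβ
  have hn1 : 0 < n + 1 := by linarith
  have h1 : Real.exp (-Λ) * (β * b * (n + 1) ^ (b ^ 2 + 1)) = 1 := by
    have h2 : Real.exp Λ = β * b * (n + 1) ^ (b ^ 2 + 1) := by
      rw [hΛ, Real.exp_add, Real.exp_log (by positivity)]
      have h3 : Real.exp (((b : ℝ) ^ 2 + 1) * Real.log (n + 1)) = (n + 1) ^ (b ^ 2 + 1) := by
        have h4 : ((b : ℝ) ^ 2 + 1) = ((b ^ 2 + 1 : ℕ) : ℝ) := by push_cast; ring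
        rw [h4, Real.exp_nat_mul, Real.exp_log hn1]
      rw [h3]; ring
    rw [← h2, ← Real.exp_add, neg_add_cancel, Real.exp_zero]
  have h5 : ω * (n + 1) ^ (b ^ 2 + 1) = (b : ℝ) ^ N := by
    have h6 : ω * (n + 1) ^ (b ^ 2 + 1) =
        (b : ℝ) ^ N * (Real.exp (-Λ) * (β * b * (n + 1) ^ (b ^ 2 + 1))) := by
      rw [hω, pow_succ (b : ℝ) N]; ring
    rw [h6, h1, mul_one]
  have h7 : 0 ≤ ω := by rw [hω]; positivity
  have h8 : (0 : ℝ) < (n + 1) ^ (b ^ 2) := by positivity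
  have h9 : J * ω * (n + 1) ^ (b ^ 2) ≤ h * (n + 1) ^ (b ^ 2) := by
    calc J * ω * (n + 1) ^ (b ^ 2) ≤ (n + 1) * ω * (n + 1) ^ (b ^ 2) := by
          apply mul_le_mul_of_nonneg_right _ h8.le
          exact mul_le_mul_of_nonneg_right hJ h7
      _ = ω * (n + 1) ^ (b ^ 2 + 1) := by ring
      _ = _ := h5
      _ ≤ _ := hgr
  exact le_of_mul_le_mul_right h9 h8

/-- The main term. -/
lemma main_term {b β δ q R rN : ℝ} {J N : ℕ} {r : ℕ → ℝ} (hb : 1 ≤ b) (hβ : 1 ≤ β)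
    (hδ0 : 0 < δ) (hq : q = b / (1 + δ)) (hR : R = rN / (β * b)) (hrN : rN = r N) (hr : 0 ≤ rN)
    (hJN : J ≤ N) (hJδ : ((J : ℝ) - 1) * δ ≤ 1)
    (hcmp : ∀ M j : ℕ, 1 ≤ M → 1 ≤ j → N = M + j → r N ≤ β * b ^ (j + 1) * r M) :
    R * (J / 2) ≤ ∑ i ∈ range J, q ^ i * r (N - i) := by
  have hb0 : 0 < b := by linarith
  have hβ0 : 0 < β := by linarith
  have hR0 : 0 ≤ R := by rw [hR]; positivity
  have h1 : ∀ i ∈ range J, R * (1 + δ)⁻¹ ^ i ≤ q ^ i * r (N - i) := by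
    intro i hi
    have hi' := mem_range.1 hi
    have h2 : q ^ i = b ^ i * (1 + δ)⁻¹ ^ i := by
      rw [← mul_pow, hq, div_eq_mul_inv]
    have h3 : R ≤ b ^ i * r (N - i) := by
      rw [hR, div_le_iff₀ (by positivity)]
      rcases Nat.eq_zero_or_pos i with rfl | hi0
      · rw [pow_zero, one_mul, Nat.sub_zero, ← hrN]
        have h4 : (1 : ℝ) ≤ β * b := one_le_mul_of_one_le_of_one_le hβ hb
        exact le_mul_of_one_le_right hr h4
      · have h5 := hcmp (N - i) i (by omega) hi0 (by omega)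
        rw [hrN]
        calc r N ≤ β * b ^ (i + 1) * r (N - i) := h5
          _ = _ := by ring
    have h4 : (0 : ℝ) ≤ (1 + δ)⁻¹ ^ i := by positivity
    calc R * (1 + δ)⁻¹ ^ i ≤ (b ^ i * r (N - i)) * (1 + δ)⁻¹ ^ i :=
          mul_le_mul_of_nonneg_right h3 h4
      _ = _ := by rw [h2]; ring
  calc R * (J / 2) ≤ R * ∑ i ∈ range J, (1 + δ)⁻¹ ^ i :=
        mul_le_mul_of_nonneg_left (geom_lower hδ0.le hJδ) hR0
    _ = ∑ i ∈ range J, R * (1 + δ)⁻¹ ^ i := by rw [mul_sum]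
    _ ≤ _ := sum_le_sum h1

/-- The condition on `q`. -/
lemma q_cond {b n s δ q x : ℝ} (hb : 1 ≤ b) (hn : 4 ≤ n) (hδ0 : 0 < δ)
    (hδ : δ = 2 * b * (s + 1) / n) (hq : q = b / (1 + δ)) (hx : n / 2 ≤ x + 2) :
    q * ((x + 1) / b + s + 1) ≤ x + 2 := by
  have hb0 : 0 < b := by linarith
  have hn0 : 0 < n := by linarith
  rw [hq, div_mul_eq_mul_div, div_le_iff₀ (by linarith)]
  have h2 : b * ((x + 1) / b + s + 1) = (x + 1) + b * (s + 1) := by field_simp; ring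
  rw [h2]
  have h4 : n / 2 * δ = b * (s + 1) := by rw [hδ]; field_simp
  have h5 : n / 2 * δ ≤ (x + 2) * δ := mul_le_mul_of_nonneg_right hx hδ0.le
  linarith

/-- **The final inequality.** -/
theorem final {b β N : ℕ} (hb : 1 ≤ b) (hβ : 1 ≤ β) {h r : ℕ → ℝ} (hr0 : ∀ m, 0 ≤ r m)
    (hrh : ∀ m, r m ≤ h m)
    (hgr : (b : ℝ) ^ N ≤ h N * ((N : ℝ) + 2) ^ (b ^ 2))
    (hcmp : ∀ M j : ℕ, 1 ≤ M → 1 ≤ j → N = M + j → r N ≤ β * (b : ℝ) ^ (j + 1) * r M)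
    (hstep : ∀ m < N, ∀ θ s q : ℝ, 0 ≤ θ → θ ≤ 1 → 0 ≤ q →
      q * (((m : ℝ) + 1) / b + s + 1) ≤ m + 2 → 0 ≤ s →
      r (m + 1) + q * (h m - β * ((b : ℝ) ^ (m + 1) *
        Real.exp (((m : ℝ) + 1) * θ ^ 2 / b - θ * s))) ≤ h (m + 1)) :
    ((N : ℝ) + 1) * r N ^ 2 ≤
      3072 * (β : ℝ) ^ 2 * (b : ℝ) ^ 5 * Real.log (β * ((N : ℝ) + 2)) * h N ^ 2 := by
  have hb' : (1 : ℝ) ≤ b := by exact_mod_cast hb
  have hβ' : (1 : ℝ) ≤ β := by exact_mod_cast hβ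
  obtain ⟨n, hn⟩ : ∃ n : ℝ, n = (N : ℝ) + 1 := ⟨_, rfl⟩
  have hN0 : (0 : ℝ) ≤ N := Nat.cast_nonneg N
  have hn1 : 1 ≤ n := by rw [hn]; linarith
  have hNn : (N : ℝ) + 2 = n + 1 := by rw [hn]; ring
  rw [hNn] at hgr ⊢
  rw [← hn]
  obtain ⟨Λ, hΛ⟩ : ∃ Λ : ℝ, Λ = ((b : ℝ) ^ 2 + 1) * Real.log (n + 1) + Real.log (β * b) :=
    ⟨_, rfl⟩
  have hΛ3 : Λ ≤ 3 * (b : ℝ) ^ 2 * Real.log (β * (n + 1)) := by
    have := lam_le (n := N + 1) hb hβ (by omega)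
    push_cast at this
    rw [hΛ, hn]
    exact this
  have hΛb : 0.69 * (b : ℝ) ^ 2 ≤ Λ := by
    have hlog2 : (0.69 : ℝ) ≤ Real.log (n + 1) := by
      have h4 : Real.log 2 ≤ Real.log (n + 1) := Real.log_le_log (by norm_num) (by linarith)
      have := Real.log_two_gt_d9
      linarith
    have hlogb : 0 ≤ Real.log ((β : ℝ) * b) :=
      Real.log_nonneg (one_le_mul_of_one_le_of_one_le hβ' hb')
    have h1 : (b : ℝ) ^ 2 * 0.69 ≤ (b : ℝ) ^ 2 * Real.log (n + 1) :=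
      mul_le_mul_of_nonneg_left hlog2 (by positivity)
    rw [hΛ, add_mul, one_mul]
    linarith
  have hhN : 0 ≤ h N := (hr0 N).trans (hrh N)
  have hgoal : n * r N ^ 2 ≤ 1024 * (β : ℝ) ^ 2 * (b : ℝ) ^ 3 * Λ * h N ^ 2 →
      n * r N ^ 2 ≤ 3072 * (β : ℝ) ^ 2 * (b : ℝ) ^ 5 * Real.log (β * (n + 1)) * h N ^ 2 := by
    intro h'
    refine h'.trans (mul_le_mul_of_nonneg_right ?_ (by positivity))
    calc 1024 * (β : ℝ) ^ 2 * (b : ℝ) ^ 3 * Λ ≤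
        1024 * (β : ℝ) ^ 2 * (b : ℝ) ^ 3 * (3 * (b : ℝ) ^ 2 * Real.log (β * (n + 1))) :=
          mul_le_mul_of_nonneg_left hΛ3 (by positivity)
      _ = _ := by ring
  apply hgoal
  by_cases htriv : n < (b : ℝ) * Λ ∨ n < 4
  · exact trivial_case hb' hβ' (by linarith) hΛb (hr0 N) (hrh N) htriv
  push Not at htriv
  obtain ⟨hn2, hn4⟩ := htriv
  obtain ⟨s, θ, hs2, hs1, hθ0, hθ1, hθs, hθ2⟩ := params hb' hn4 hΛb hn2
  obtain ⟨δ, J, hδ0, hδ, hJ1, hJδ, hJ4⟩ := steps hb' hn4 hs1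
  obtain ⟨q, hq⟩ : ∃ q : ℝ, q = b / (1 + δ) := ⟨_, rfl⟩
  have hb0 : (0 : ℝ) < b := by linarith
  have hq0 : 0 ≤ q := by rw [hq]; positivity
  have hqb : q ≤ b := by
    rw [hq]
    exact div_le_self hb0.le (by linarith)
  have hJN : J ≤ N := by
    have : (J : ℝ) ≤ N := by linarith
    exact_mod_cast this
  obtain ⟨ω, hω⟩ : ∃ ω : ℝ, ω = β * ((b : ℝ) ^ (N + 1) * Real.exp (-Λ)) := ⟨_, rfl⟩
  have hmain := iterate (h := h) (r := r)
    (E := fun m => β * ((b : ℝ) ^ (m + 1) *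
        Real.exp (((m : ℝ) + 1) * θ ^ 2 / b - θ * s))) (q := q) (ω := ω) hq0 N J hJN
    (fun i hi => by
      have hcast : ((N - i - 1 : ℕ) : ℝ) = N - i - 1 := by
        rw [Nat.cast_sub (by omega), Nat.cast_sub (by omega), Nat.cast_one]
      have hiJ : (i : ℝ) + 1 ≤ J := by exact_mod_cast hi
      have h1 := hstep (N - i - 1) (by omega) θ s q hθ0 hθ1 hq0
        (q_cond hb' hn4 hδ0 hδ hq (by rw [hcast]; linarith)) (by linarith)
      have h2 : N - i - 1 + 1 = N - i := by omega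
      rw [h2] at h1
      simpa only [h2] using h1)
    (fun i hi => by
      have hcast : ((N - i - 1 : ℕ) : ℝ) = N - i - 1 := by
        rw [Nat.cast_sub (by omega), Nat.cast_sub (by omega), Nat.cast_one]
      have h1 : Real.exp ((((N - i - 1 : ℕ) : ℝ) + 1) * θ ^ 2 / b - θ * s) ≤ Real.exp (-Λ) := by
        apply Real.exp_le_exp.2
        rw [hcast, hθs]
        have h2 : ((N : ℝ) - i - 1 + 1) * θ ^ 2 / b ≤ n * θ ^ 2 / b := by
          apply div_le_div_of_nonneg_right _ hb0.le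
          apply mul_le_mul_of_nonneg_right _ (by positivity)
          have : (0 : ℝ) ≤ i := Nat.cast_nonneg i
          linarith
        rw [hθ2] at h2
        linarith
      have h3 : q ^ (i + 1) ≤ (b : ℝ) ^ (i + 1) := pow_le_pow_left₀ hq0 hqb _
      have h4 : (b : ℝ) ^ (N + 1) = (b : ℝ) ^ (i + 1) * (b : ℝ) ^ (N - i - 1 + 1) := by
        rw [← pow_add]; congr 1; omega
      rw [hω, h4]
      calc q ^ (i + 1) * (β * ((b : ℝ) ^ (N - i - 1 + 1) *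
            Real.exp ((((N - i - 1 : ℕ) : ℝ) + 1) * θ ^ 2 / b - θ * s)))
          ≤ (b : ℝ) ^ (i + 1) * (β * ((b : ℝ) ^ (N - i - 1 + 1) * Real.exp (-Λ))) := by
            apply mul_le_mul h3 _ (by positivity) (by positivity)
            exact mul_le_mul_of_nonneg_left (mul_le_mul_of_nonneg_left h1 (by positivity))
              (by positivity)
        _ = _ := by ring)
  have hω2 : (J : ℝ) * ω ≤ h N := error_le hb hβ hn1 hΛ hω (by linarith) hgr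
  have hsum := main_term (R := r N / (β * b)) (r := r) hb' hβ' hδ0 hq rfl rfl (hr0 N) hJN hJδ
    hcmp
  have hfin : r N / (β * b) * (J / 4) ≤ h N := by
    have h1 : 0 ≤ q ^ J * h (N - J) :=
      mul_nonneg (pow_nonneg hq0 _) ((hr0 _).trans (hrh _))
    by_cases hc : (J : ℝ) * ω ≤ r N / (β * b) * (J / 4)
    · linarith
    · push Not at hc
      linarith
  exact conclude hb' hβ' hn4 hs1 hs2 hδ0 hδ hJ1 (hr0 N) hhN rfl hfin

end Pool.Agent.X208.SQ
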