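import Pool.Agent.X208.SQ.Rank
import Pool.Agent.X208.SQ.Real

/-!
# The square root law
-/

open CategoryTheory AlgebraicGeometry

universe u v

namespace Pool.Agent.X208.SQ

open Module
open Pool.Agent.H914 Pool.Agent.H914.VarClass Pool.Agent.H914.VarClass.Obj
  Pool.Agent.H914.WeilCohomology Pool.Agent.Y133.Half Pool.Agent.Y133.Half.Sys

variable {k : Type u} [Field k] {𝒱 : VarClass k} {ops : CycleOps 𝒱}
  {W : WeilCohomology.{u, v} ops} {X Y Z P : 𝒱.Obj}

/-- A nonzero vector is a member of a basis. -/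
lemma exists_basis {K V : Type*} [Field K] [AddCommGroup V] [Module K V] [Module.Finite K V]
    {z : V} (hz : z ≠ 0) : ∃ (e : Basis (Fin (finrank K V)) K V) (o : Fin (finrank K V)),
      e o = z := by
  have hli : LinearIndepOn K id ({z} : Set V) := by
    rw [linearIndepOn_singleton_iff]
    exact hz
  let B := Basis.extend hli
  have hmem : z ∈ hli.extend (Set.subset_univ _) :=
    hli.subset_extend (Set.subset_univ _) (Set.mem_singleton z)
  let F := Module.finBasis K V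
  refine ⟨B.reindex (B.indexEquiv F), (B.indexEquiv F) ⟨z, hmem⟩, ?_⟩
  rw [Basis.reindex_apply, Equiv.symm_apply_apply, Basis.extend_apply_self]

/-- One step, with the estimate of the number of the exceptional words. -/
lemma step {S : Sys W} {b β : ℕ} (f : Basis (Fin β) W.K (W.H Y)) (e : Basis (Fin b) W.K (W.H X))
    {o : Fin b} (hz : e o ∈ S.Num X) (m : ℕ) {θ s q : ℝ} (hθ0 : 0 ≤ θ) (hθ1 : θ ≤ 1) (hq : 0 ≤ q)
    (hqs : q * (((m : ℝ) + 1) / b + s + 1) ≤ m + 2) (hs : 0 ≤ s) :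
    (S.a (Y.prod (pw X (m + 1))) : ℝ) +
      q * (finrank W.K (S.C (Y.prod (pw X m))) - β * ((b : ℝ) ^ (m + 1) *
        Real.exp (((m : ℝ) + 1) * θ ^ 2 / b - θ * s))) ≤
        finrank W.K (S.C (Y.prod (pw X (m + 1)))) := by
  classical
  have h1 := key_step f e hz m
  set L := lead (yb f e m) toO (S.C (Y.prod (pw X m))) with hL
  have h2 : (finrank W.K (S.C (Y.prod (pw X m))) : ℝ) ≤ L.card := by
    exact_mod_cast finrank_le_lead (yb f e m) toO _
  set G : Finset (Fin β × (Fin (m + 1) → Fin b)) :=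
    L.filter fun x => ((m + 1 : ℕ) : ℝ) / b + s < occ o x.2 with hG
  have h3 : (G.card : ℝ) ≤ β * ((b : ℝ) ^ (m + 1) *
        Real.exp (((m : ℝ) + 1) * θ ^ 2 / b - θ * s)) := by
    have h4 := card_occ_le o (m + 1) (s := s) hθ0 hθ1
    rw [Fintype.card_fin] at h4
    push_cast at h4
    have h5 : G ⊆ (Finset.univ : Finset (Fin β)) ×ˢ ((Finset.univ : Finset (Fin (m + 1) → Fin b)).filter
        fun w => ((m : ℝ) + 1) / b + s < occ o w) := by
      intro x hx
      rw [Finset.mem_product]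
      refine ⟨Finset.mem_univ _, Finset.mem_filter.2 ⟨Finset.mem_univ _, ?_⟩⟩
      have := (Finset.mem_filter.1 hx).2
      push_cast at this
      exact this
    have h6 := Finset.card_le_card h5
    rw [Finset.card_product, Finset.card_univ, Fintype.card_fin] at h6
    have h7 : (G.card : ℝ) ≤ β * (((Finset.univ : Finset (Fin (m + 1) → Fin b)).filter
        fun w => ((m : ℝ) + 1) / b + s < occ o w).card : ℝ) := by exact_mod_cast h6
    exact h7.trans (mul_le_mul_of_nonneg_left h4 (Nat.cast_nonneg β))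
  have h4 : q * ((L.card : ℝ) - G.card) ≤ ∑ x ∈ L, ((m : ℝ) + 2) / (occ o x.2 + 1) := by
    have h5 : (L.card : ℝ) - G.card =
        (L.filter fun x => ¬ ((m + 1 : ℕ) : ℝ) / b + s < occ o x.2).card := by
      have := Finset.card_filter_add_card_filter_not (s := L)
        (fun x => ((m + 1 : ℕ) : ℝ) / b + s < occ o x.2)
      have h6 : (G.card : ℝ) + (L.filter fun x => ¬ ((m + 1 : ℕ) : ℝ) / b + s < occ o x.2).card =
          L.card := by exact_mod_cast this
      linarith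
    rw [h5]
    calc q * ((L.filter fun x => ¬ ((m + 1 : ℕ) : ℝ) / b + s < occ o x.2).card : ℝ) =
        ∑ x ∈ L.filter fun x => ¬ ((m + 1 : ℕ) : ℝ) / b + s < occ o x.2, q := by
          rw [Finset.sum_const, nsmul_eq_mul, mul_comm]
      _ ≤ ∑ x ∈ L.filter fun x => ¬ ((m + 1 : ℕ) : ℝ) / b + s < occ o x.2,
          ((m : ℝ) + 2) / (occ o x.2 + 1) := by
          refine Finset.sum_le_sum fun x hx => ?_
          have h6 := not_lt.1 (Finset.mem_filter.1 hx).2
          push_cast at h6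
          have h7 : (0 : ℝ) < occ o x.2 + 1 := by positivity
          rw [le_div_iff₀ h7]
          refine le_trans (mul_le_mul_of_nonneg_left ?_ hq) hqs
          linarith
      _ ≤ _ := Finset.sum_le_sum_of_subset_of_nonneg (Finset.filter_subset _ _)
          (fun x _ _ => by positivity)
  have h5 : q * ((finrank W.K (S.C (Y.prod (pw X m))) : ℝ) - β * ((b : ℝ) ^ (m + 1) *
        Real.exp (((m : ℝ) + 1) * θ ^ 2 / b - θ * s))) ≤ q * ((L.card : ℝ) - G.card) :=
    mul_le_mul_of_nonneg_left (by linarith) hq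
  linarith

/-- **The square root law.** If there is a nonzero numerically trivial class of the system on `X`,
then `n r(Y × X ^ n) ^ 2 ≤ 3072 β ^ 2 b ^ 5 log (β (n + 1)) h(Y × X ^ n) ^ 2` for all `Y` and `n`. -/
theorem sqrt_law (S : Sys W) (X Y : 𝒱.Obj) (hX : S.Num X ≠ ⊥) (N : ℕ) :
    ((N : ℝ) + 1) * (S.a (Y.prod (pw X N)) : ℝ) ^ 2 ≤
      3072 * (finrank W.K (W.H Y) : ℝ) ^ 2 * (finrank W.K (W.H X) : ℝ) ^ 5 *
        Real.log (finrank W.K (W.H Y) * ((N : ℝ) + 2)) *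
          (finrank W.K (S.C (Y.prod (pw X N))) : ℝ) ^ 2 := by
  have hlog : 0 ≤ Real.log ((finrank W.K (W.H Y) : ℝ) * ((N : ℝ) + 2)) := by
    rcases Nat.eq_zero_or_pos (finrank W.K (W.H Y)) with h | h
    · rw [h]; simp
    · apply Real.log_nonneg
      have h1 : (1 : ℝ) ≤ finrank W.K (W.H Y) := by exact_mod_cast h
      have h2 : (1 : ℝ) ≤ (N : ℝ) + 2 := by
        have : (0 : ℝ) ≤ N := Nat.cast_nonneg N
        linarith
      exact one_le_mul_of_one_le_of_one_le h1 h2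
  have hzero : S.a (Y.prod (pw X N)) = 0 → ((N : ℝ) + 1) * (S.a (Y.prod (pw X N)) : ℝ) ^ 2 ≤
      3072 * (finrank W.K (W.H Y) : ℝ) ^ 2 * (finrank W.K (W.H X) : ℝ) ^ 5 *
        Real.log (finrank W.K (W.H Y) * ((N : ℝ) + 2)) *
          (finrank W.K (S.C (Y.prod (pw X N))) : ℝ) ^ 2 := by
    intro h
    rw [h]
    have : (0 : ℝ) ≤ 3072 * (finrank W.K (W.H Y) : ℝ) ^ 2 * (finrank W.K (W.H X) : ℝ) ^ 5 *
        Real.log (finrank W.K (W.H Y) * ((N : ℝ) + 2)) *
          (finrank W.K (S.C (Y.prod (pw X N))) : ℝ) ^ 2 := by positivity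
    simpa using this
  by_cases hlY : ∀ l ∈ S.C Y, W.tr Y l = 0
  · exact hzero (a_eq_zero_of_map S hlY (fst Y (pw X N)))
  by_cases hlX : ∀ l ∈ S.C X, W.tr X l = 0
  · exact hzero (a_eq_zero_of_map S hlX (snd Y (pw X N) ≫ prj X N 0))
  push Not at hlY hlX
  obtain ⟨lY', hlY', hY0⟩ := hlY
  obtain ⟨lX', hlX', hX0⟩ := hlX
  obtain ⟨lY, hlY, hY1⟩ : ∃ l ∈ S.C Y, W.tr Y l = 1 :=
    ⟨(W.tr Y lY')⁻¹ • lY', Submodule.smul_mem _ _ hlY', by
      rw [map_smul, smul_eq_mul, inv_mul_cancel₀ hY0]⟩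
  obtain ⟨lX, hlX, hX1⟩ : ∃ l ∈ S.C X, W.tr X l = 1 :=
    ⟨(W.tr X lX')⁻¹ • lX', Submodule.smul_mem _ _ hlX', by
      rw [map_smul, smul_eq_mul, inv_mul_cancel₀ hX0]⟩
  have h1Y : (1 : W.H Y) ≠ 0 := one_ne_zero_of (ne_zero_of_tr hY1)
  have h1X : (1 : W.H X) ≠ 0 := one_ne_zero_of (ne_zero_of_tr hX1)
  have hnY : Nontrivial (W.H Y) := ⟨⟨1, 0, h1Y⟩⟩
  have hnX : Nontrivial (W.H X) := ⟨⟨1, 0, h1X⟩⟩
  obtain ⟨z, hz, hz0⟩ := Submodule.exists_mem_ne_zero_of_ne_bot hX
  obtain ⟨e, o, rfl⟩ := exists_basis (K := W.K) hz0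
  have hah : ∀ Z : 𝒱.Obj, S.a Z ≤ finrank W.K (S.C Z) := fun Z => by
    have := S.a_add_num Z
    omega
  refine final (b := finrank W.K (W.H X)) (β := finrank W.K (W.H Y))
    (h := fun m => (finrank W.K (S.C (Y.prod (pw X m))) : ℝ))
    (r := fun m => (S.a (Y.prod (pw X m)) : ℝ)) Module.finrank_pos Module.finrank_pos
    (fun m => Nat.cast_nonneg _) (fun m => by exact_mod_cast hah _) ?_ ?_ ?_
  · have h1 := growth_pw S h1X N
    have h2 : finrank W.K (S.C (pw X N)) ≤ finrank W.K (S.C (Y.prod (pw X N))) :=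
      S.finrank_C_le (snd Y (pw X N)) (map_snd_inj h1Y)
    have h3 := h1.trans (Nat.mul_le_mul_right _ h2)
    exact_mod_cast h3
  · intro M j hM hj hN
    have h1 := a_compare S hlY hY1 hlX hX1 hM hj hN
    exact_mod_cast h1
  · intro m _ θ s q hθ0 hθ1 hq hqs hs
    exact step (Module.finBasis W.K (W.H Y)) e hz m hθ0 hθ1 hq hqs hs

end Pool.Agent.X208.SQ
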