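import Mathlib

/-!
# Counting words: the insertion of a letter
-/

namespace Pool.Agent.X208.SQ

open Finset

variable {κ ι : Type} [DecidableEq κ] [DecidableEq ι] (o : ι)

/-- The number of occurrences of the letter `o`. -/
def occ {m : ℕ} (w : Fin m → ι) : ℕ := (univ.filter fun i => w i = o).card

/-- The insertion of the letter `o` at the position `i`. -/
def ins {m : ℕ} (i : Fin (m + 1)) (x : κ × (Fin m → ι)) : κ × (Fin (m + 1) → ι) :=
  (x.1, Fin.insertNth i o x.2)

omit [DecidableEq κ] [DecidableEq ι] in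
lemma ins_injective {m : ℕ} (i : Fin (m + 1)) :
    Function.Injective (ins (κ := κ) o i : κ × (Fin m → ι) → _) := by
  intro x y h
  have h1 : x.1 = y.1 := (Prod.mk.inj h).1
  have h2 : Fin.insertNth (α := fun _ => ι) i o x.2 = Fin.insertNth i o y.2 := (Prod.mk.inj h).2
  refine Prod.ext h1 ?_
  funext j
  have h3 := congrFun h2 (i.succAbove j)
  rwa [Fin.insertNth_apply_succAbove, Fin.insertNth_apply_succAbove] at h3

omit [DecidableEq κ] in
lemma occ_ins {m : ℕ} (i : Fin (m + 1)) (x : κ × (Fin m → ι)) :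
    occ o (ins o i x).2 = occ o x.2 + 1 := by
  unfold occ ins
  have h : (univ.filter fun l : Fin (m + 1) => Fin.insertNth (α := fun _ => ι) i o x.2 l = o) =
      insert i ((univ.filter fun j : Fin m => x.2 j = o).map (Fin.succAboveEmb i)) := by
    ext l
    rw [mem_filter, mem_insert, mem_map]
    constructor
    · rintro ⟨_, h⟩
      rcases Fin.eq_self_or_eq_succAbove i l with rfl | ⟨j, rfl⟩
      · exact Or.inl rfl
      · rw [Fin.insertNth_apply_succAbove] at h
        exact Or.inr ⟨j, mem_filter.2 ⟨mem_univ _, h⟩, rfl⟩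
    · rintro (rfl | ⟨j, hj, rfl⟩)
      · exact ⟨mem_univ _, by rw [Fin.insertNth_apply_same]⟩
      · refine ⟨mem_univ _, ?_⟩
        rw [Fin.succAboveEmb_apply, Fin.insertNth_apply_succAbove]
        exact (mem_filter.1 hj).2
  rw [h, card_insert_of_notMem, card_map]
  intro hi
  obtain ⟨j, _, hj⟩ := mem_map.1 hi
  exact Fin.succAbove_ne i j hj

/-- The words obtained by one insertion from the words of `L`. -/
def shadow {m : ℕ} (L : Finset (κ × (Fin m → ι))) : Finset (κ × (Fin (m + 1) → ι)) :=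
  (L ×ˢ (univ : Finset (Fin (m + 1)))).image fun p => ins o p.2 p.1

lemma mem_shadow {m : ℕ} {L : Finset (κ × (Fin m → ι))} {y : κ × (Fin (m + 1) → ι)} :
    y ∈ shadow o L ↔ ∃ x ∈ L, ∃ i, ins o i x = y := by
  unfold shadow
  rw [mem_image]
  constructor
  · rintro ⟨⟨x, i⟩, h, rfl⟩
    exact ⟨x, (mem_product.1 h).1, i, rfl⟩
  · rintro ⟨x, hx, i, rfl⟩
    exact ⟨(x, i), mem_product.2 ⟨hx, mem_univ _⟩, rfl⟩

/-- **The size of the shadow.** -/
theorem sum_le_shadow {m : ℕ} (L : Finset (κ × (Fin m → ι))) :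
    ∑ x ∈ L, ((m : ℝ) + 1) / (occ o x.2 + 1) ≤ (shadow o L).card := by
  have h1 : ∑ x ∈ L, ((m : ℝ) + 1) / (occ o x.2 + 1) =
      ∑ p ∈ L ×ˢ (univ : Finset (Fin (m + 1))), 1 / (occ o (ins o p.2 p.1).2 : ℝ) := by
    rw [sum_product]
    refine sum_congr rfl fun x _ => ?_
    have h0 : ∀ i : Fin (m + 1), 1 / (occ o (ins o i x).2 : ℝ) = 1 / ((occ o x.2 : ℝ) + 1) := by
      intro i
      rw [occ_ins, Nat.cast_add, Nat.cast_one]
    rw [sum_congr rfl fun i _ => h0 i, sum_const, card_univ, Fintype.card_fin, nsmul_eq_mul]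
    push_cast
    ring
  rw [h1, ← sum_fiberwise_of_maps_to (s := L ×ˢ (univ : Finset (Fin (m + 1))))
    (t := shadow o L) (g := fun p => ins o p.2 p.1) (fun p hp => mem_image_of_mem _ hp)]
  have h2 : ∀ y ∈ shadow o L, ∑ p ∈ (L ×ˢ (univ : Finset (Fin (m + 1)))).filter
      (fun p => ins o p.2 p.1 = y), 1 / (occ o (ins o p.2 p.1).2 : ℝ) ≤ 1 := by
    intro y hy
    rw [sum_congr rfl fun p hp => by rw [(mem_filter.1 hp).2], sum_const, nsmul_eq_mul]
    have h3 : ((L ×ˢ (univ : Finset (Fin (m + 1)))).filter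
        (fun p => ins o p.2 p.1 = y)).card ≤ occ o y.2 := by
      unfold occ
      refine card_le_card_of_injOn (fun p => p.2) ?_ ?_
      · intro p hp
        have hp' := (mem_filter.1 (mem_coe.1 hp)).2
        rw [mem_coe, mem_filter]
        refine ⟨mem_univ _, ?_⟩
        rw [← hp']
        exact Fin.insertNth_apply_same (α := fun _ => ι) _ _ _
      · intro p hp p' hp' h
        have e1 := (mem_filter.1 (mem_coe.1 hp)).2
        have e2 := (mem_filter.1 (mem_coe.1 hp')).2
        have h' : p.2 = p'.2 := h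
        refine Prod.ext ?_ h'
        rw [← h'] at e2
        exact ins_injective o p.2 (e1.trans e2.symm)
    rcases Nat.eq_zero_or_pos (occ o y.2) with h4 | h4
    · rw [h4, Nat.cast_zero, div_zero, mul_zero]; exact zero_le_one
    · have h5 : (0 : ℝ) < occ o y.2 := by exact_mod_cast h4
      rw [mul_one_div, div_le_one h5]
      exact_mod_cast h3
  calc _ ≤ ∑ y ∈ shadow o L, (1 : ℝ) := sum_le_sum h2
    _ = _ := by rw [sum_const, nsmul_eq_mul, mul_one]

/-- The generating function of the number of occurrences. -/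
lemma sum_exp_occ [Fintype ι] (m : ℕ) (θ : ℝ) :
    ∑ w : Fin m → ι, Real.exp (θ * occ o w) = ((Fintype.card ι : ℝ) - 1 + Real.exp θ) ^ m := by
  have h1 : ∀ w : Fin m → ι, Real.exp (θ * occ o w) =
      ∏ i, (if w i = o then Real.exp θ else 1) := by
    intro w
    rw [prod_ite, prod_const, prod_const_one, mul_one, ← Real.exp_nat_mul, mul_comm]
    rfl
  rw [sum_congr rfl fun w _ => h1 w]
  rw [show (∑ w : Fin m → ι, ∏ i, (if w i = o then Real.exp θ else 1)) =
    ∏ _i : Fin m, ∑ j : ι, (if j = o then Real.exp θ else 1) from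
      (Finset.prod_univ_sum (fun _ : Fin m => (univ : Finset ι))
        (fun _ j => if j = o then Real.exp θ else 1)).symm ▸ by
        rw [Fintype.piFinset_univ]]
  rw [prod_const, card_univ, Fintype.card_fin]
  congr 1
  rw [sum_ite, sum_const, sum_const, filter_eq', if_pos (mem_univ _), card_singleton, one_smul]
  have h2 : ((univ : Finset ι).filter fun j => ¬ j = o).card + 1 = Fintype.card ι := by
    have h3 := card_filter_add_card_filter_not (s := (univ : Finset ι)) (fun j => j = o)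
    rw [filter_eq', if_pos (mem_univ _), card_singleton, card_univ] at h3
    omega
  rw [← h2, nsmul_eq_mul, mul_one]
  push_cast
  ring

/-- **The number of words with many occurrences.** -/
lemma card_occ_le [Fintype ι] (m : ℕ) {θ s : ℝ} (h0 : 0 ≤ θ) (h1 : θ ≤ 1) :
    (((univ : Finset (Fin m → ι)).filter fun w =>
      (m : ℝ) / Fintype.card ι + s < occ o w).card : ℝ) ≤
      (Fintype.card ι : ℝ) ^ m * Real.exp (m * θ ^ 2 / Fintype.card ι - θ * s) := by
  set b : ℝ := (Fintype.card ι : ℝ) with hb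
  have hb1 : 1 ≤ b := by
    have : 1 ≤ Fintype.card ι := Fintype.card_pos_iff.2 ⟨o⟩
    rw [hb]
    exact_mod_cast this
  set F := (univ : Finset (Fin m → ι)).filter fun w => (m : ℝ) / b + s < occ o w with hF
  have h2 : (F.card : ℝ) * Real.exp (θ * ((m : ℝ) / b + s)) ≤ (b - 1 + Real.exp θ) ^ m := by
    rw [← sum_exp_occ o m θ]
    calc (F.card : ℝ) * Real.exp (θ * ((m : ℝ) / b + s)) =
        ∑ w ∈ F, Real.exp (θ * ((m : ℝ) / b + s)) := by rw [sum_const, nsmul_eq_mul]
      _ ≤ ∑ w ∈ F, Real.exp (θ * occ o w) := by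
          refine sum_le_sum fun w hw => ?_
          apply Real.exp_le_exp.2
          exact mul_le_mul_of_nonneg_left (mem_filter.1 hw).2.le h0
      _ ≤ _ := sum_le_sum_of_subset_of_nonneg (filter_subset _ _)
          (fun w _ _ => (Real.exp_pos _).le)
  have h3 : b - 1 + Real.exp θ ≤ b * Real.exp ((θ + θ ^ 2) / b) := by
    have h4 : Real.exp θ ≤ 1 + θ + θ ^ 2 := by
      have := Real.exp_bound_div_one_sub_of_interval h0
      have h5 := Real.abs_exp_sub_one_sub_id_le (x := θ) (by rw [abs_of_nonneg h0]; exact h1)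
      have := (abs_le.1 h5).2
      linarith
    have h6 : (θ + θ ^ 2) / b + 1 ≤ Real.exp ((θ + θ ^ 2) / b) := Real.add_one_le_exp _
    have h7 : b * ((θ + θ ^ 2) / b + 1) ≤ b * Real.exp ((θ + θ ^ 2) / b) :=
      mul_le_mul_of_nonneg_left h6 (by linarith)
    have h8 : b * ((θ + θ ^ 2) / b + 1) = θ + θ ^ 2 + b := by
      field_simp
    linarith
  have h9 : (b - 1 + Real.exp θ) ^ m ≤ b ^ m * Real.exp (m * ((θ + θ ^ 2) / b)) := by
    rw [Real.exp_nat_mul, ← mul_pow]
    exact pow_le_pow_left₀ (by have := Real.exp_pos θ; linarith) h3 m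
  have h10 : (0 : ℝ) < Real.exp (θ * ((m : ℝ) / b + s)) := Real.exp_pos _
  have h11 := h2.trans h9
  rw [← le_div_iff₀ h10, mul_div_assoc, ← Real.exp_sub] at h11
  refine h11.trans (le_of_eq ?_)
  congr 2
  ring

end Pool.Agent.X208.SQ
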