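import Pool.Agent.X208.SQ.Ord
import Pool.Agent.Y133.Half.Main2

/-!
# The insertion of a numerically trivial class
-/

open CategoryTheory AlgebraicGeometry

universe u v

namespace Pool.Agent.X208.SQ

open Module
open Pool.Agent.H914 Pool.Agent.H914.VarClass Pool.Agent.H914.VarClass.Obj
  Pool.Agent.H914.WeilCohomology Pool.Agent.Y133.Half Pool.Agent.Y133.Half.Sys

variable {k : Type u} [Field k] {𝒱 : VarClass k} {ops : CycleOps 𝒱}
  {W : WeilCohomology.{u, v} ops} {X Y Z P : 𝒱.Obj}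

/-- The product of a list with a central entry. -/
lemma prod_ofFn_insert {M : Type*} [Monoid M] : ∀ {n : ℕ} (f : Fin (n + 1) → M) (i : Fin (n + 1)),
    (∀ x, f i * x = x * f i) →
      (List.ofFn f).prod = (List.ofFn fun j => f (i.succAbove j)).prod * f i
  | n, f, i, hc => by
    induction n with
    | zero =>
      have : i = 0 := by omega
      subst this
      simp
    | succ n ih =>
      refine Fin.cases (motive := fun i => (∀ x, f i * x = x * f i) →
        (List.ofFn f).prod = (List.ofFn fun j => f (i.succAbove j)).prod * f i) ?_ ?_ i hc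
      · intro hc
        rw [List.ofFn_succ, List.prod_cons, hc]
        congr 2
      · intro i' hc
        have e1 : f (i'.succ.succAbove 0) = f 0 := congrArg f (Fin.succ_succAbove_zero i')
        have e2 : (fun j : Fin n => f (i'.succ.succAbove j.succ)) =
            fun j => f (i'.succAbove j).succ := by
          funext j; rw [Fin.succ_succAbove_succ]
        rw [List.ofFn_succ, List.prod_cons, ih (fun j => f j.succ) i' hc,
          List.ofFn_succ (f := fun j => f (i'.succ.succAbove j)), List.prod_cons, e1, e2,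
          mul_assoc]

/-- The projection forgetting the factor with the index `i`. -/
noncomputable def dl (X : 𝒱.Obj) (n : ℕ) (i : Fin (n + 2)) : pw X (n + 1) ⟶ pw X n :=
  liftN X n fun j => prj X (n + 1) (i.succAbove j)

lemma dl_prj (n : ℕ) (i : Fin (n + 2)) (j : Fin (n + 1)) :
    dl X n i ≫ prj X n j = prj X (n + 1) (i.succAbove j) := liftN_prj n _ j

section Wb

variable {ι : Type} [Fintype ι] [DecidableEq ι] (e : Basis ι W.K (W.H X))

lemma map_dl_wb {o : ι} (ho : e o ∈ PH W X 0) (n : ℕ) (i : Fin (n + 2)) (w : Fin (n + 1) → ι) :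
    W.map (dl X n i) (wb e n w) * W.map (prj X (n + 1) i) (e o) =
      wb e (n + 1) (Fin.insertNth i o w) := by
  rw [wb_eq, wb_eq, map_list_prod, List.map_ofFn]
  have key := prod_ofFn_insert
    (fun l => W.map (prj X (n + 1) l) (e ((Fin.insertNth i o w : Fin (n + 2) → ι) l))) i
    (fun x => by
      rw [Fin.insertNth_apply_same]
      exact PH.even_comm (PH.map _ ho) x)
  rw [key, Fin.insertNth_apply_same]
  congr 3
  funext j
  rw [Function.comp_apply, ← W.map_comp, dl_prj, Fin.insertNth_apply_succAbove]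

end Wb

/-- The projection of `Y × X ^ (n + 2)` forgetting one factor. -/
noncomputable def DL (Y X : 𝒱.Obj) (n : ℕ) (i : Fin (n + 2)) :
    Y.prod (pw X (n + 1)) ⟶ Y.prod (pw X n) :=
  Obj.lift (fst Y (pw X (n + 1))) (snd Y (pw X (n + 1)) ≫ dl X n i)

/-- The projection to one factor. -/
noncomputable def PR (Y X : 𝒱.Obj) (n : ℕ) (i : Fin (n + 2)) : Y.prod (pw X (n + 1)) ⟶ X :=
  snd Y (pw X (n + 1)) ≫ prj X (n + 1) i

/-- The insertion of the class `z` at the place `i`. -/
noncomputable def insL (W : WeilCohomology.{u, v} ops) (Y : 𝒱.Obj) {X : 𝒱.Obj} (z : W.H X) (n : ℕ)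
    (i : Fin (n + 2)) : W.H (Y.prod (pw X n)) →ₗ[W.K] W.H (Y.prod (pw X (n + 1))) :=
  (LinearMap.mulRight W.K (W.map (PR Y X n i) z)) ∘ₗ (W.map (DL Y X n i)).toLinearMap

lemma insL_apply (z : W.H X) (n : ℕ) (i : Fin (n + 2)) (c : W.H (Y.prod (pw X n))) :
    insL W Y z n i c = W.map (DL Y X n i) c * W.map (PR Y X n i) z := rfl

variable {κ ι : Type} [Fintype κ] [Fintype ι] [LinearOrder κ] [LinearOrder ι]

/-- The basis of the cohomology of `Y × X ^ (n + 1)`. -/
noncomputable def yb (f : Basis κ W.K (W.H Y)) (e : Basis ι W.K (W.H X)) (n : ℕ) :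
    Basis (κ × (Fin (n + 1) → ι)) W.K (W.H (Y.prod (pw X n))) :=
  (f.tensorProduct (wb e n)).map (kappa W Y (pw X n))

omit [Fintype κ] [LinearOrder κ] in
lemma yb_apply (f : Basis κ W.K (W.H Y)) (e : Basis ι W.K (W.H X)) (n : ℕ)
    (x : κ × (Fin (n + 1) → ι)) :
    yb f e n x = W.map (fst Y (pw X n)) (f x.1) * W.map (snd Y (pw X n)) (wb e n x.2) := by
  have h : yb f e n x = kappa W Y (pw X n) ((f.tensorProduct (wb e n)) x) := rfl
  rw [h, show x = (x.1, x.2) from rfl, Basis.tensorProduct_apply]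
  exact kappa_tmul _ _

omit [Fintype κ] [LinearOrder κ] in
lemma insL_yb (f : Basis κ W.K (W.H Y)) (e : Basis ι W.K (W.H X)) {o : ι}
    (ho : e o ∈ PH W X 0) (n : ℕ) (i : Fin (n + 2)) (x : κ × (Fin (n + 1) → ι)) :
    insL W Y (e o) n i (yb f e n x) = yb f e (n + 1) (ins o i x) := by
  rw [insL_apply, yb_apply, yb_apply, map_mul, ← W.map_comp, ← W.map_comp]
  have e1 : DL Y X n i ≫ fst Y (pw X n) = fst Y (pw X (n + 1)) := Obj.lift_fst _ _
  have e2 : DL Y X n i ≫ snd Y (pw X n) = snd Y (pw X (n + 1)) ≫ dl X n i := Obj.lift_snd _ _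
  rw [e1, e2, PR, W.map_comp, W.map_comp, mul_assoc, ← map_mul, map_dl_wb e ho]
  rfl

lemma repr_insL (f : Basis κ W.K (W.H Y)) (e : Basis ι W.K (W.H X)) {o : ι}
    (ho : e o ∈ PH W X 0) (n : ℕ) (i : Fin (n + 2)) (c : W.H (Y.prod (pw X n)))
    (x : κ × (Fin (n + 1) → ι)) :
    (yb f e (n + 1)).repr (insL W Y (e o) n i c) (ins o i x) = (yb f e n).repr c x := by
  classical
  conv_lhs => rw [← (yb f e n).sum_repr c]
  rw [map_sum, map_sum, Finsupp.finsetSum_apply, Finset.sum_eq_single x]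
  · rw [map_smul, map_smul, Finsupp.smul_apply, insL_yb f e ho, Basis.repr_self,
      Finsupp.single_eq_same, smul_eq_mul, mul_one]
  · intro y _ hy
    rw [map_smul, map_smul, Finsupp.smul_apply, insL_yb f e ho, Basis.repr_self,
      Finsupp.single_eq_of_ne, smul_zero]
    intro h
    exact hy (ins_injective o i h).symm
  · intro h; exact absurd (Finset.mem_univ _) h

lemma repr_insL_of_ne (f : Basis κ W.K (W.H Y)) (e : Basis ι W.K (W.H X)) {o : ι}
    (ho : e o ∈ PH W X 0) (n : ℕ) (i : Fin (n + 2)) (c : W.H (Y.prod (pw X n)))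
    (y : κ × (Fin (n + 2) → ι)) (hy : ∀ x, ins o i x ≠ y) :
    (yb f e (n + 1)).repr (insL W Y (e o) n i c) y = 0 := by
  classical
  conv_lhs => rw [← (yb f e n).sum_repr c]
  rw [map_sum, map_sum, Finsupp.finsetSum_apply, Finset.sum_eq_zero]
  intro x _
  rw [map_smul, map_smul, Finsupp.smul_apply, insL_yb f e ho, Basis.repr_self,
    Finsupp.single_eq_of_ne, smul_zero]
  exact fun h => hy x h.symm

/-- The leading index of an insertion. -/
lemma lead_insL (f : Basis κ W.K (W.H Y)) (e : Basis ι W.K (W.H X)) {o : ι}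
    (ho : e o ∈ PH W X 0) (n : ℕ) {U : Submodule W.K (W.H (Y.prod (pw X n)))}
    {U' : Submodule W.K (W.H (Y.prod (pw X (n + 1))))}
    (hU : ∀ i, ∀ c ∈ U, insL W Y (e o) n i c ∈ U') :
    shadow o (lead (yb f e n) toO U) ⊆ lead (yb f e (n + 1)) toO U' := by
  intro y hy
  obtain ⟨x, hx, i, rfl⟩ := (mem_shadow o).1 hy
  obtain ⟨c, hc, h1, h2⟩ := (mem_lead _ _).1 hx
  refine (mem_lead _ _).2 ⟨_, hU i c hc, ?_, fun y hy => ?_⟩
  · rw [repr_insL f e ho]; exact h1
  · by_cases h : ∃ x', ins o i x' = y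
    · obtain ⟨x', rfl⟩ := h
      rw [repr_insL f e ho]
      exact h2 x' ((toO_ins_iff o i).1 hy)
    · push Not at h
      exact repr_insL_of_ne f e ho n i c y h

/-- A numerically trivial class, inserted, gives numerically trivial classes. -/
lemma insL_mem {S : Sys W} {z : W.H X} (hz : z ∈ S.Num X) (n : ℕ) (i : Fin (n + 2))
    (c : W.H (Y.prod (pw X n))) (hc : c ∈ S.C (Y.prod (pw X n))) :
    insL W Y z n i c ∈ S.Num (Y.prod (pw X (n + 1))) :=
  Num.mul' (S.map _ hc) (Num.map _ hz)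

/-- **The key inequality.** -/
theorem key_step {S : Sys W} (f : Basis κ W.K (W.H Y)) (e : Basis ι W.K (W.H X)) {o : ι}
    (hz : e o ∈ S.Num X) (n : ℕ) :
    (S.a (Y.prod (pw X (n + 1))) : ℝ) +
      ∑ x ∈ lead (yb f e n) toO (S.C (Y.prod (pw X n))), ((n : ℝ) + 2) / (occ o x.2 + 1) ≤
        finrank W.K (S.C (Y.prod (pw X (n + 1)))) := by
  have h1 := S.a_add_num (Y.prod (pw X (n + 1)))
  have h2 := lead_insL f e (S.even hz.1) n (U := S.C (Y.prod (pw X n)))
    (U' := S.Num (Y.prod (pw X (n + 1)))) (fun i c hc => insL_mem hz n i c hc)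
  have h3 := (Finset.card_le_card h2).trans
    (lead_le_finrank (yb f e (n + 1)) toO toO_injective _)
  have h4 := sum_le_shadow o (lead (yb f e n) toO (S.C (Y.prod (pw X n))))
  have h5 : ∑ x ∈ lead (yb f e n) toO (S.C (Y.prod (pw X n))), ((n : ℝ) + 2) / (occ o x.2 + 1) =
      ∑ x ∈ lead (yb f e n) toO (S.C (Y.prod (pw X n))),
        (((n + 1 : ℕ) : ℝ) + 1) / (occ o x.2 + 1) := by
    refine Finset.sum_congr rfl fun x _ => ?_
    push_cast
    ring
  rw [h5]
  have h6 : ((shadow o (lead (yb f e n) toO (S.C (Y.prod (pw X n))))).card : ℝ) ≤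
      finrank W.K (S.Num (Y.prod (pw X (n + 1)))) := by exact_mod_cast h3
  have h7 : (S.a (Y.prod (pw X (n + 1))) : ℝ) + finrank W.K (S.Num (Y.prod (pw X (n + 1)))) =
      finrank W.K (S.C (Y.prod (pw X (n + 1)))) := by exact_mod_cast h1
  linarith

end Pool.Agent.X208.SQ
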