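import Mathlib

/-!
# Leading indices of the vectors of a subspace
-/

namespace Pool.Agent.X208.SQ

open Module

section Lead

variable {K : Type*} [Field K] {V : Type*} [AddCommGroup V] [Module K V]
  {J : Type*} {O : Type*} [LinearOrder O] (B : Basis J K V) (f : J → O)

/-- The index `j` is the first one of a nonzero coordinate of some vector of the subspace `U`. -/
def IsLead (U : Submodule K V) (j : J) : Prop :=
  ∃ u ∈ U, B.repr u j ≠ 0 ∧ ∀ i, f i < f j → B.repr u i = 0

variable [Fintype J]

open Classical in
/-- The set of the leading indices. -/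
noncomputable def lead (U : Submodule K V) : Finset J := Finset.univ.filter (IsLead B f U)

lemma mem_lead {U : Submodule K V} {j : J} : j ∈ lead B f U ↔ IsLead B f U j := by
  classical
  unfold lead
  rw [Finset.mem_filter]
  exact ⟨fun h => h.2, fun h => ⟨Finset.mem_univ _, h⟩⟩

lemma exists_lead {U : Submodule K V} {u : V} (hu : u ∈ U) (h0 : u ≠ 0) :
    ∃ j ∈ lead B f U, B.repr u j ≠ 0 := by
  classical
  have h1 : (Finset.univ.filter fun j => B.repr u j ≠ 0).Nonempty := by
    by_contra h
    rw [Finset.not_nonempty_iff_eq_empty, Finset.filter_eq_empty_iff] at h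
    apply h0
    apply B.repr.injective
    rw [map_zero]
    ext j
    have := h (Finset.mem_univ j)
    rw [not_not] at this
    rw [this]; rfl
  obtain ⟨j, hj, hmin⟩ := Finset.exists_min_image _ f h1
  refine ⟨j, (mem_lead B f).2 ⟨u, hu, (Finset.mem_filter.1 hj).2, fun i hi => ?_⟩,
    (Finset.mem_filter.1 hj).2⟩
  by_contra h
  exact absurd (hmin i (Finset.mem_filter.2 ⟨Finset.mem_univ _, h⟩)) (not_le.2 hi)

lemma finrank_le_lead (U : Submodule K V) : finrank K U ≤ (lead B f U).card := by
  classical
  let φ : U →ₗ[K] ((lead B f U) → K) :=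
    LinearMap.pi fun j => (B.coord j.1) ∘ₗ U.subtype
  have hφ : Function.Injective φ := by
    rw [← LinearMap.ker_eq_bot, LinearMap.ker_eq_bot']
    intro u hu
    by_contra h0
    have h1 : (u : V) ≠ 0 := fun h => h0 (Subtype.ext h)
    obtain ⟨j, hj, hj'⟩ := exists_lead B f u.2 h1
    apply hj'
    exact congrFun hu ⟨j, hj⟩
  have h := LinearMap.finrank_le_finrank_of_injective hφ
  rwa [Module.finrank_fintype_fun_eq_card, Fintype.card_coe] at h

lemma lead_le_finrank (hf : Function.Injective f) (U : Submodule K V) :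
    (lead B f U).card ≤ finrank K U := by
  classical
  have : Module.Finite K V := Module.Finite.of_basis B
  choose u hu h1 h2 using fun j : lead B f U => (mem_lead B f).1 j.2
  have hli : LinearIndependent K (fun j : lead B f U => (⟨u j, hu j⟩ : U)) := by
    rw [Fintype.linearIndependent_iff]
    intro g hg
    by_contra hcon
    push Not at hcon
    obtain ⟨i, hi⟩ := hcon
    obtain ⟨j, hj, hmin⟩ := Finset.exists_min_image
      (Finset.univ.filter fun j : lead B f U => g j ≠ 0) (fun j => f j.1)
      ⟨i, Finset.mem_filter.2 ⟨Finset.mem_univ _, hi⟩⟩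
    have hj' := (Finset.mem_filter.1 hj).2
    have h3 : ∑ l, g l * B.repr (u l) j.1 = 0 := by
      have h4 := congrArg (fun x : U => B.repr (x : V) j.1) hg
      simp only [Submodule.coe_sum, Submodule.coe_smul, map_sum, map_smul, Finsupp.coe_finsetSum,
        Finset.sum_apply, Finsupp.smul_apply, smul_eq_mul, Submodule.coe_zero, map_zero,
        Finsupp.coe_zero, Pi.zero_apply] at h4
      exact h4
    rw [Finset.sum_eq_single j] at h3
    · exact (mul_ne_zero hj' (h1 j)) h3
    · intro l _ hl
      by_cases hgl : g l = 0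
      · rw [hgl, zero_mul]
      · have h5 := hmin l (Finset.mem_filter.2 ⟨Finset.mem_univ _, hgl⟩)
        have h6 : f j.1 ≠ f l.1 := fun h => hl (Subtype.ext (hf h).symm)
        rw [h2 l j.1 (lt_of_le_of_ne h5 h6), mul_zero]
    · intro h; exact absurd (Finset.mem_univ _) h
  have h := hli.fintype_card_le_finrank
  rwa [Fintype.card_coe] at h

lemma lead_mono {U U' : Submodule K V} (h : U ≤ U') : lead B f U ⊆ lead B f U' := by
  intro j hj
  obtain ⟨u, hu, h1, h2⟩ := (mem_lead B f).1 hj
  exact (mem_lead B f).2 ⟨u, h hu, h1, h2⟩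

end Lead

end Pool.Agent.X208.SQ
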