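import Pool.Agent.X208.SQ.Lead
import Pool.Agent.X208.SQ.Cnt

/-!
# The lexicographic order and insertions
-/

namespace Pool.Agent.X208.SQ

variable {κ ι : Type} [LinearOrder κ] [LinearOrder ι]

/-- The index set with the lexicographic order. -/
def toO {m : ℕ} (x : κ × (Fin m → ι)) : Lex (Lex (Fin m → ι) × κ) := toLex (toLex x.2, x.1)

omit [LinearOrder κ] [LinearOrder ι] in
lemma toO_injective {m : ℕ} : Function.Injective (toO : κ × (Fin m → ι) → _) := by
  intro x y h
  have h1 : (toLex x.2, x.1) = (toLex y.2, y.1) := toLex.injective h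
  have h2 := Prod.mk.inj h1
  exact Prod.ext h2.2 (toLex.injective h2.1)

/-- The insertion of a letter at a given place preserves the order. -/
lemma toO_ins {m : ℕ} (o : ι) (i : Fin (m + 1)) {x y : κ × (Fin m → ι)} (h : toO x < toO y) :
    toO (ins o i x) < toO (ins o i y) := by
  unfold toO at h ⊢
  rw [Prod.Lex.toLex_lt_toLex] at h ⊢
  rcases h with h | ⟨h1, h2⟩
  · left
    obtain ⟨j, hj, hlt⟩ := h
    refine ⟨i.succAbove j, fun l hl => ?_, ?_⟩
    · rcases Fin.eq_self_or_eq_succAbove i l with rfl | ⟨l', rfl⟩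
      · exact (Fin.insertNth_apply_same (α := fun _ => ι) _ _ _).trans
          (Fin.insertNth_apply_same (α := fun _ => ι) _ _ _).symm
      · have hl' : l' < j := (Fin.strictMono_succAbove i).lt_iff_lt.1 hl
        exact (Fin.insertNth_apply_succAbove (α := fun _ => ι) _ _ _ _).trans
          ((hj l' hl').trans (Fin.insertNth_apply_succAbove (α := fun _ => ι) _ _ _ _).symm)
    · have e1 : (ins o i x).2 (i.succAbove j) = x.2 j :=
        Fin.insertNth_apply_succAbove (α := fun _ => ι) _ _ _ _
      have e2 : (ins o i y).2 (i.succAbove j) = y.2 j :=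
        Fin.insertNth_apply_succAbove (α := fun _ => ι) _ _ _ _
      change (ins o i x).2 (i.succAbove j) < (ins o i y).2 (i.succAbove j)
      rw [e1, e2]
      exact hlt
  · right
    refine ⟨?_, h2⟩
    have h3 : x.2 = y.2 := toLex.injective h1
    change toLex (Fin.insertNth (α := fun _ => ι) i o x.2) =
      toLex (Fin.insertNth (α := fun _ => ι) i o y.2)
    rw [h3]

lemma toO_ins_iff {m : ℕ} (o : ι) (i : Fin (m + 1)) {x y : κ × (Fin m → ι)} :
    toO (ins o i x) < toO (ins o i y) ↔ toO x < toO y := by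
  refine ⟨fun h => ?_, toO_ins o i⟩
  rcases lt_trichotomy (toO x) (toO y) with h' | h' | h'
  · exact h'
  · rw [toO_injective h'] at h
    exact absurd h (lt_irrefl _)
  · exact absurd (h.trans (toO_ins o i h')) (lt_irrefl _)

end Pool.Agent.X208.SQ
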