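import Pool.Agent.X208.SQ.Ins

/-!
# Ranks of intersection forms on products
-/

open CategoryTheory AlgebraicGeometry

universe u v

namespace Pool.Agent.X208.SQ

open Module
open Pool.Agent.H914 Pool.Agent.H914.VarClass Pool.Agent.H914.VarClass.Obj
  Pool.Agent.H914.WeilCohomology Pool.Agent.Y133.Half Pool.Agent.Y133.Half.Sys

variable {k : Type u} [Field k] {𝒱 : VarClass k} {ops : CycleOps 𝒱}
  {W : WeilCohomology.{u, v} ops} {X Y Z P : 𝒱.Obj} (S : Sys W)

/-- If there is a class of degree one on `P`, the rank of the intersection form on `P × Z` is at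
least the one on `Z`. -/
lemma a_le_prod {l : W.H P} (hl : l ∈ S.C P) (hl1 : W.tr P l = 1) (Z : 𝒱.Obj) :
    S.a Z ≤ S.a (P.prod Z) := by
  have h1 := S.a_add_num Z
  have h2 := S.a_add_num (P.prod Z)
  let φ : S.C Z →ₗ[W.K] (S.C (P.prod Z) ⧸ (S.Num (P.prod Z)).comap (S.C (P.prod Z)).subtype) :=
    ((S.Num (P.prod Z)).comap (S.C (P.prod Z)).subtype).mkQ ∘ₗ S.mapS (snd P Z)
  have hker : (LinearMap.ker φ).map (S.C Z).subtype ≤ S.Num Z := by
    rintro _ ⟨c, hc, rfl⟩
    rw [SetLike.mem_coe, LinearMap.mem_ker] at hc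
    have hc' : S.mapS (snd P Z) c ∈ (S.Num (P.prod Z)).comap (S.C (P.prod Z)).subtype := by
      rwa [LinearMap.comp_apply, Submodule.mkQ_apply, Submodule.Quotient.mk_eq_zero] at hc
    have hc'' : W.map (snd P Z) (c : W.H Z) ∈ S.Num (P.prod Z) := hc'
    refine ⟨c.2, fun d hd => ?_⟩
    have h3 := hc''.2 (W.map (snd P Z) d * W.map (fst P Z) l) (S.mul (S.map _ hd) (S.map _ hl))
    rw [← mul_assoc, ← map_mul, ← PH.even_comm (PH.map _ (S.even hl)), W.tr_prod, hl1,
      one_mul] at h3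
    exact h3
  have h4 : finrank W.K (LinearMap.ker φ) ≤ finrank W.K (S.Num Z) := by
    rw [(Submodule.equivMapOfInjective _ (Submodule.subtype_injective (S.C Z))
      (LinearMap.ker φ)).finrank_eq]
    exact Submodule.finrank_mono hker
  have h5 := LinearMap.finrank_range_add_finrank_ker φ
  have h6 : finrank W.K (LinearMap.range φ) ≤
      finrank W.K (S.C (P.prod Z) ⧸ (S.Num (P.prod Z)).comap (S.C (P.prod Z)).subtype) :=
    Submodule.finrank_le _
  have h7 := Submodule.finrank_quotient_add_finrank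
    ((S.Num (P.prod Z)).comap (S.C (P.prod Z)).subtype)
  have h8 : finrank W.K ((S.Num (P.prod Z)).comap (S.C (P.prod Z)).subtype) =
      finrank W.K (S.Num (P.prod Z)) := by
    have h9 : ((S.Num (P.prod Z)).comap (S.C (P.prod Z)).subtype).map
        (S.C (P.prod Z)).subtype = S.Num (P.prod Z) := by
      rw [Submodule.map_comap_subtype]
      exact inf_eq_right.2 fun x hx => hx.1
    rw [(Submodule.equivMapOfInjective _ (Submodule.subtype_injective (S.C (P.prod Z)))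
      ((S.Num (P.prod Z)).comap (S.C (P.prod Z)).subtype)).finrank_eq, h9]
  omega

/-- If all classes on `P` have degree zero, the intersection forms on the varieties over `P`
vanish. -/
lemma a_eq_zero_of_map (hP : ∀ l ∈ S.C P, W.tr P l = 0) (f : Z ⟶ P) : S.a Z = 0 := by
  have h1 := S.a_add_num Z
  have h2 : S.Num Z = S.C Z := by
    apply le_antisymm
    · exact fun x hx => hx.1
    · intro x hx
      refine ⟨hx, fun d hd => ?_⟩
      have h3 := W.tr_push f (x * d) 1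
      rw [mul_one, map_one, mul_one] at h3
      rw [← h3]
      exact hP _ (S.push f (S.mul hx hd))
  rw [h2] at h1
  omega

lemma pw_one_ne (h : (1 : W.H X) ≠ 0) : ∀ n, (1 : W.H (pw X n)) ≠ 0 := by
  intro n
  have hX : Nontrivial (W.H X) := ⟨⟨1, 0, h⟩⟩
  have hX' : 0 < finrank W.K (W.H X) := Module.finrank_pos
  have : Nontrivial (W.H (pw X n)) := by
    apply Module.nontrivial_of_finrank_pos (R := W.K)
    rw [finrank_pw]
    exact Nat.pow_pos hX'
  exact one_ne_zero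

lemma map_fst_inj (h : (1 : W.H Z) ≠ 0) : Function.Injective (W.map (fst P Z)) := by
  intro x y hxy
  have h3 : xp W (x - y) (1 : W.H Z) = 0 := by
    rw [xp, map_one, mul_one, map_sub, hxy, sub_self]
  exact sub_eq_zero.1 (xp_eq_zero_right h h3)

lemma map_snd_inj (h : (1 : W.H P) ≠ 0) : Function.Injective (W.map (snd P Z)) := by
  intro x y hxy
  have h3 : xp W (1 : W.H P) (x - y) = 0 := by
    rw [xp, map_one, one_mul, map_sub, hxy, sub_self]
  exact sub_eq_zero.1 (xp_eq_zero_left h h3)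

/-- **Growth** on all powers. -/
lemma growth_pw (h : (1 : W.H X) ≠ 0) (N : ℕ) : finrank W.K (W.H X) ^ N ≤
    finrank W.K (S.C (pw X N)) * (N + 2) ^ (finrank W.K (W.H X) ^ 2) := by
  set b := finrank W.K (W.H X) with hb
  have hX : Nontrivial (W.H X) := ⟨⟨1, 0, h⟩⟩
  have hb1 : 1 ≤ b := Module.finrank_pos
  rcases Nat.eq_zero_or_pos N with rfl | hN
  · rw [pow_zero]
    have h1 : 0 < finrank W.K (S.C (pw X 0)) := by
      have : Nontrivial (S.C (pw X 0)) :=
        ⟨⟨⟨1, S.one _⟩, 0, fun h' => pw_one_ne h 0 (congrArg Subtype.val h')⟩⟩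
      exact Module.finrank_pos
    have h2 : 0 < (0 + 2) ^ (b ^ 2) := by positivity
    exact Nat.succ_le_of_lt (Nat.mul_pos h1 h2)
  · obtain ⟨l, hl | hl⟩ : ∃ l, N = l + l + 1 ∨ N = l + l + 1 + 1 := ⟨(N - 1) / 2, by omega⟩
    · have h1 := S.growth X l
      rw [S.finrank_C_iso (pwAdd X l l), ← hb, ← hl] at h1
      calc b ^ N ≤ b ^ (2 * (l + 1)) := Nat.pow_le_pow_right hb1 (by omega)
        _ ≤ _ := h1
        _ ≤ _ := Nat.mul_le_mul_left _ (Nat.pow_le_pow_left (by omega) _)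
    · have h1 := S.growth X l
      rw [S.finrank_C_iso (pwAdd X l l), ← hb] at h1
      have h2 : finrank W.K (S.C (pw X (l + l + 1))) ≤ finrank W.K (S.C (pw X N)) := by
        rw [hl]
        exact S.finrank_C_le (fst (pw X (l + l + 1)) X) (map_fst_inj h)
      calc b ^ N ≤ b ^ (2 * (l + 1)) := Nat.pow_le_pow_right hb1 (by omega)
        _ ≤ _ := h1
        _ ≤ _ := Nat.mul_le_mul h2 (Nat.pow_le_pow_left (by omega) _)

/-- Comparison of the ranks on the varieties `Y × X ^ n`. -/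
lemma a_compare {lY : W.H Y} (hY : lY ∈ S.C Y) (hY1 : W.tr Y lY = 1) {lX : W.H X}
    (hX : lX ∈ S.C X) (hX1 : W.tr X lX = 1) {N M j : ℕ} (hM : 1 ≤ M) (hj : 1 ≤ j)
    (hN : N = M + j) :
    S.a (Y.prod (pw X N)) ≤ finrank W.K (W.H Y) * finrank W.K (W.H X) ^ (j + 1) *
      S.a (Y.prod (pw X M)) := by
  set b := finrank W.K (W.H X) with hb
  have h1X : (1 : W.H X) ≠ 0 := one_ne_zero_of (ne_zero_of_tr hX1)
  have hXn : Nontrivial (W.H X) := ⟨⟨1, 0, h1X⟩⟩
  have hb1 : 1 ≤ b := Module.finrank_pos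
  obtain ⟨l, hl | hl⟩ : ∃ l, M = l + l + 1 ∨ M = l + l + 1 + 1 := ⟨(M - 1) / 2, by omega⟩
  · obtain ⟨i, rfl⟩ : ∃ i, j = i + 1 := ⟨j - 1, by omega⟩
    let φ : Y.prod (pw X N) ≅ (Y.prod (pw X i)).prod ((pw X l).prod (pw X l)) :=
      prodCongr (Iso.refl Y) (eqToIso (congrArg (pw X) (by omega)) ≪≫
        (pwAdd X i (l + l + 1)).symm ≪≫ prodCongr (Iso.refl _) (pwAdd X l l).symm) ≪≫
          (θ₃ Y (pw X i) ((pw X l).prod (pw X l))).symm
    let ψ : Y.prod (pw X M) ≅ Y.prod ((pw X l).prod (pw X l)) :=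
      prodCongr (Iso.refl Y) (eqToIso (congrArg (pw X) hl) ≪≫ (pwAdd X l l).symm)
    rw [S.a_iso φ, S.a_iso ψ]
    have h1 := S.a_le (Y.prod (pw X i)) (pw X l)
    rw [Pool.Agent.Y133.Half.finrank_prod, finrank_pw, ← hb] at h1
    have h2 := a_le_prod S hY hY1 ((pw X l).prod (pw X l))
    calc _ ≤ _ := h1
      _ ≤ finrank W.K (W.H Y) * b ^ (i + 1 + 1) * S.a ((pw X l).prod (pw X l)) :=
          Nat.mul_le_mul_right _ (Nat.mul_le_mul_left _ (Nat.pow_le_pow_right hb1 (by omega)))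
      _ ≤ _ := Nat.mul_le_mul_left _ h2
  · let φ : Y.prod (pw X N) ≅ (Y.prod (pw X j)).prod ((pw X l).prod (pw X l)) :=
      prodCongr (Iso.refl Y) (eqToIso (congrArg (pw X) (by omega)) ≪≫
        (pwAdd X j (l + l + 1)).symm ≪≫ prodCongr (Iso.refl _) (pwAdd X l l).symm) ≪≫
          (θ₃ Y (pw X j) ((pw X l).prod (pw X l))).symm
    let ψ : Y.prod (pw X M) ≅ (Y.prod X).prod ((pw X l).prod (pw X l)) :=
      prodCongr (Iso.refl Y) (eqToIso (congrArg (pw X) (show M = 0 + (l + l + 1) + 1 by omega)) ≪≫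
        (pwAdd X 0 (l + l + 1)).symm ≪≫
          (prodCongr (Iso.refl _) (pwAdd X l l).symm : _ ≅ X.prod ((pw X l).prod (pw X l)))) ≪≫
          (θ₃ Y X ((pw X l).prod (pw X l))).symm
    rw [S.a_iso φ, S.a_iso ψ]
    have h1 := S.a_le (Y.prod (pw X j)) (pw X l)
    rw [Pool.Agent.Y133.Half.finrank_prod, finrank_pw, ← hb] at h1
    have hl2 : xp W lY lX ∈ S.C (Y.prod X) := S.mul (S.map _ hY) (S.map _ hX)
    have hl3 : W.tr (Y.prod X) (xp W lY lX) = 1 := by
      rw [xp, W.tr_prod, hY1, hX1, mul_one]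
    have h2 := a_le_prod S hl2 hl3 ((pw X l).prod (pw X l))
    exact h1.trans (Nat.mul_le_mul_left _ h2)

end Pool.Agent.X208.SQ
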